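import Pool.Agent.W_d33b62f_h37.Df
import Pool.Agent.W_d33b62_h36.MM3

/-!
# MP_d33b62_nt: the sieve product for `FamF`
-/

set_option autoImplicit false

noncomputable section

open Finset

namespace Pool.Agent.W33f

/-- The density of the classes `nm z ≡ a₀` mod `p`. -/
def gg (p : ℕ) : ℝ := ((p : ℝ) - ((ZMod.χ₄ (p : ZMod 4) : ℤ) : ℝ)) / (p : ℝ) ^ 2

/-- The primes `w < p < z` which do not divide `d`. -/
def Pd (w : ℕ) (z : ℝ) (d : ℕ) : Finset ℕ := (Pw w z).filter fun p => ¬ p ∣ d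

private theorem g1_chi (p : ℕ) : |((ZMod.χ₄ (p : ZMod 4) : ℤ) : ℝ)| ≤ 1 := by
  rcases ZMod.isQuadratic_χ₄ (p : ZMod 4) with h | h | h <;> rw [h] <;> norm_num

/-- `|χ₄| ≤ 1`, `p ≥ 3`. -/
theorem gg_bounds (p : ℕ) (hp : p.Prime) (h3 : 3 ≤ p) : 0 ≤ gg p ∧ gg p ≤ 3 / 4 ∧ gg p ≤ 2 / p := by
  have h1 := abs_le.1 (g1_chi p)
  have h3' : (3 : ℝ) ≤ p := by exact_mod_cast h3
  have hp0 : (0 : ℝ) < p := by linarith
  unfold gg
  refine ⟨?_, ?_, ?_⟩
  · apply div_nonneg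
    · linarith
    · positivity
  · rw [div_le_iff₀ (by positivity)]
    nlinarith
  · rw [div_le_div_iff₀ (by positivity) hp0]
    nlinarith

private theorem g1_gg_ge (p : ℕ) (hp : 0 < p) : 1 - gg p ≤ Real.exp (-(1 / (p : ℝ)) + 1 / (p : ℝ) ^ 2) := by
  have h1 := abs_le.1 (g1_chi p)
  have hp0 : (0 : ℝ) < p := by exact_mod_cast hp
  have h2 : 1 / (p : ℝ) - 1 / (p : ℝ) ^ 2 ≤ gg p := by
    unfold gg
    have e : 1 / (p : ℝ) - 1 / (p : ℝ) ^ 2 = ((p : ℝ) - 1) / (p : ℝ) ^ 2 := by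
      field_simp
    rw [e]
    apply div_le_div_of_nonneg_right _ (by positivity)
    linarith
  have h3 := Real.add_one_le_exp (-(1 / (p : ℝ)) + 1 / (p : ℝ) ^ 2)
  linarith

private theorem g1_sq (S : Finset ℕ) : ∑ p ∈ S, 1 / (p : ℝ) ^ 2 ≤ ∑' n : ℕ, 1 / (n : ℝ) ^ 2 :=
  Summable.sum_le_tsum S (fun _ _ => by positivity) (Real.summable_one_div_nat_pow.2 (by norm_num))

private theorem g1_log (w : ℕ) (hw : 2 ≤ w) : Real.log ((w : ℝ) + 1) ≤ 2 * Real.log w := by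
  have h : (2 : ℝ) ≤ w := by exact_mod_cast hw
  have e : 2 * Real.log (w : ℝ) = Real.log ((w : ℝ) ^ 2) := by
    rw [Real.log_pow]
    norm_num
  rw [e]
  apply Real.log_le_log (by linarith)
  nlinarith

private theorem g1_mem {w : ℕ} {z : ℝ} {p : ℕ} : p ∈ Pw w z ↔ p.Prime ∧ w < p ∧ (p : ℝ) < z := by
  unfold Pw
  rw [mem_filter, mem_range, Nat.lt_ceil]
  tauto

private theorem g1_Pw (w : ℕ) (z : ℝ) : Pw w z = Pool.Agent.Wb58c63.PI ((w : ℝ) + 1) z := by
  ext p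
  rw [g1_mem, Pool.Agent.Wb58c63.mem_PI]
  have : ((w : ℝ) + 1 ≤ p) ↔ w < p := by
    rw [← Nat.succ_le_iff]
    exact_mod_cast Iff.rfl
  rw [this]

private theorem g1_div (w : ℕ) (z : ℝ) (d : ℕ) (hw : 2 ≤ w) (hd : d ≠ 0) :
    Real.exp (∑ p ∈ (Pw w z).filter (fun p => p ∣ d), 1 / (p : ℝ)) ≤
      2 ^ d.primeFactors.card := by
  rw [Real.exp_sum]
  have h1 : ∏ p ∈ (Pw w z).filter (fun p => p ∣ d), Real.exp (1 / (p : ℝ)) ≤
      ∏ p ∈ (Pw w z).filter (fun p => p ∣ d), (2 : ℝ) := by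
    apply Finset.prod_le_prod
    · intro p _
      positivity
    · intro p hp
      rw [mem_filter, g1_mem] at hp
      have h3 : (3 : ℝ) ≤ p := by
        have : 3 ≤ p := by omega
        exact_mod_cast this
      have h4 : 1 / (p : ℝ) ≤ 1 / 3 := one_div_le_one_div_of_le (by norm_num) h3
      have h5 : (1 : ℝ) / 3 ≤ Real.log 2 := by
        have := Real.log_two_gt_d9
        linarith
      calc Real.exp (1 / (p : ℝ)) ≤ Real.exp (Real.log 2) := Real.exp_le_exp.2 (h4.trans h5)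
        _ = 2 := Real.exp_log (by norm_num)
  refine h1.trans ?_
  rw [Finset.prod_const]
  apply pow_le_pow_right₀ (by norm_num)
  apply Finset.card_le_card
  intro p hp
  rw [mem_filter, g1_mem] at hp
  exact Nat.mem_primeFactors.2 ⟨hp.1.1, hp.2, hd⟩

/-- **Mertens.** Proof: `1 - gg p ≤ 1 - 1 / p + 1 / p ^ 2 ≤ (1 - 1 / p) (1 + 2 / p ^ 2) ≤ exp (-1 / p + 2 / p ^ 2)`, `∑ 2 / p ^ 2 ≤ 4`;
`∏_{w < p < z, p ∤ d} (1 - 1 / p) ≤ 2 ^ ω(d) ∏_{w < p < z} (1 - 1 / p)` and `∑_{w < p < z} 1 / p ≥ log (log z / log w) - C / log 2` from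
`Wd33b62.mertens_all` (`MM3.lean`; `PI (w + 1) z`, if `w + 1 ≤ z`; else the set is empty and `log w / log z ≥ 1 / 2`). -/
theorem prod_gg : ∃ C : ℝ, 0 < C ∧ ∀ (w : ℕ) (z : ℝ) (d : ℕ), 2 ≤ w → (w : ℝ) < z → d ≠ 0 →
    ∏ p ∈ Pd w z d, (1 - gg p) ≤ C * 2 ^ d.primeFactors.card * (Real.log w / Real.log z) := by
  obtain ⟨M, hM, h⟩ := Wd33b62.mertens_all
  have hl2 : 0 < Real.log 2 := Real.log_pos (by norm_num)
  set T : ℝ := ∑' n : ℕ, 1 / (n : ℝ) ^ 2 with hT
  have hT0 : 0 ≤ T := tsum_nonneg fun n => by positivity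
  refine ⟨2 * Real.exp (M / Real.log 2) * Real.exp T, by positivity, ?_⟩
  intro w z d hw hwz hd
  have hw' : (2 : ℝ) ≤ w := by exact_mod_cast hw
  have hlw : 0 < Real.log w := Real.log_pos (by linarith)
  have hlz : 0 < Real.log z := Real.log_pos (by linarith)
  have h2w := g1_log w hw
  have hpow : (1 : ℝ) ≤ 2 ^ d.primeFactors.card := one_le_pow₀ (by norm_num)
  by_cases hz : (w : ℝ) + 1 ≤ z
  · have hlw1 : 0 < Real.log ((w : ℝ) + 1) := Real.log_pos (by linarith)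
    have hm := (abs_le.1 (h ((w : ℝ) + 1) z (by linarith) hz)).1
    rw [← g1_Pw] at hm
    have hM2 : M / Real.log ((w : ℝ) + 1) ≤ M / Real.log 2 :=
      div_le_div_of_nonneg_left hM.le hl2 (Real.log_le_log (by norm_num) (by linarith))
    have hsplit : ∑ p ∈ Pw w z, 1 / (p : ℝ) = ∑ p ∈ (Pw w z).filter (fun p => p ∣ d), 1 / (p : ℝ) +
        ∑ p ∈ Pd w z d, 1 / (p : ℝ) := by
      unfold Pd
      exact (Finset.sum_filter_add_sum_filter_not _ _ _).symm
    have h1 : ∏ p ∈ Pd w z d, (1 - gg p) ≤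
        ∏ p ∈ Pd w z d, Real.exp (-(1 / (p : ℝ)) + 1 / (p : ℝ) ^ 2) := by
      apply Finset.prod_le_prod
      · intro p hp
        unfold Pd at hp
        rw [mem_filter, g1_mem] at hp
        have := (gg_bounds p hp.1.1 (by omega)).2.1
        linarith
      · intro p hp
        unfold Pd at hp
        rw [mem_filter, g1_mem] at hp
        exact g1_gg_ge p hp.1.1.pos
    have h2 : ∏ p ∈ Pd w z d, Real.exp (-(1 / (p : ℝ)) + 1 / (p : ℝ) ^ 2) =
        Real.exp (∑ p ∈ (Pw w z).filter (fun p => p ∣ d), 1 / (p : ℝ)) *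
        (Real.exp (∑ p ∈ Pd w z d, 1 / (p : ℝ) ^ 2) * Real.exp (-∑ p ∈ Pw w z, 1 / (p : ℝ))) := by
      rw [← Real.exp_sum, ← Real.exp_add, ← Real.exp_add, hsplit, Finset.sum_add_distrib,
        Finset.sum_neg_distrib]
      congr 1
      ring
    rw [h2] at h1
    refine h1.trans ?_
    have h3 := g1_div w z d hw hd
    have h4 : Real.exp (∑ p ∈ Pd w z d, 1 / (p : ℝ) ^ 2) ≤ Real.exp T :=
      Real.exp_le_exp.2 (g1_sq _)
    have h5 : Real.exp (-∑ p ∈ Pw w z, 1 / (p : ℝ)) ≤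
        2 * Real.exp (M / Real.log 2) * (Real.log w / Real.log z) := by
      have h6 : -∑ p ∈ Pw w z, 1 / (p : ℝ) ≤
          Real.log (Real.log ((w : ℝ) + 1) / Real.log z) + M / Real.log 2 := by
        have e : Real.log (Real.log ((w : ℝ) + 1) / Real.log z) =
            -Real.log (Real.log z / Real.log ((w : ℝ) + 1)) := by
          rw [← Real.log_inv, inv_div]
        rw [e]
        linarith
      refine (Real.exp_le_exp.2 h6).trans ?_
      rw [Real.exp_add, Real.exp_log (by positivity)]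
      have h7 : Real.log ((w : ℝ) + 1) / Real.log z ≤ 2 * (Real.log w / Real.log z) := by
        rw [← mul_div_assoc]
        exact div_le_div_of_nonneg_right h2w hlz.le
      calc Real.log ((w : ℝ) + 1) / Real.log z * Real.exp (M / Real.log 2) ≤
          2 * (Real.log w / Real.log z) * Real.exp (M / Real.log 2) :=
            mul_le_mul_of_nonneg_right h7 (Real.exp_pos _).le
        _ = _ := by ring
    calc Real.exp (∑ p ∈ (Pw w z).filter (fun p => p ∣ d), 1 / (p : ℝ)) *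
        (Real.exp (∑ p ∈ Pd w z d, 1 / (p : ℝ) ^ 2) * Real.exp (-∑ p ∈ Pw w z, 1 / (p : ℝ))) ≤
        2 ^ d.primeFactors.card * (Real.exp T *
          (2 * Real.exp (M / Real.log 2) * (Real.log w / Real.log z))) := by gcongr
      _ = _ := by ring
  · push Not at hz
    have hemp : Pd w z d = ∅ := by
      unfold Pd
      rw [Finset.filter_eq_empty_iff]
      intro p hp
      rw [g1_mem] at hp
      have : (w : ℝ) + 1 ≤ p := by exact_mod_cast hp.2.1
      linarith [hp.2.2]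
    rw [hemp, Finset.prod_empty]
    have h1 : (1 : ℝ) / 2 ≤ Real.log w / Real.log z := by
      rw [div_le_div_iff₀ (by norm_num) hlz]
      have : Real.log z ≤ Real.log ((w : ℝ) + 1) := Real.log_le_log (by linarith) hz.le
      linarith
    have h2 : (1 : ℝ) ≤ Real.exp (M / Real.log 2) := Real.one_le_exp (by positivity)
    have h3 : (1 : ℝ) ≤ Real.exp T := Real.one_le_exp hT0
    have h4 : (2 : ℝ) ≤ 2 * Real.exp (M / Real.log 2) * Real.exp T * 2 ^ d.primeFactors.card := by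
      have h5 : (1 : ℝ) ≤ Real.exp (M / Real.log 2) * Real.exp T * 2 ^ d.primeFactors.card :=
        one_le_mul_of_one_le_of_one_le (one_le_mul_of_one_le_of_one_le h2 h3) hpow
      linarith
    calc (1 : ℝ) = 2 * (1 / 2) := by norm_num
      _ ≤ 2 * Real.exp (M / Real.log 2) * Real.exp T * 2 ^ d.primeFactors.card *
          (Real.log w / Real.log z) := by
        apply mul_le_mul h4 h1 (by norm_num) (by linarith)

/-- `∏_{p ≤ w} (1 + 1 / p) ≤ exp (∑_{p ≤ w} 1 / p) ≤ C log w`. -/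
theorem prod_small : ∃ C : ℝ, 0 < C ∧ ∀ w : ℕ, 2 ≤ w →
    ∏ p ∈ (range (w + 1)).filter Nat.Prime, (1 + 1 / (p : ℝ)) ≤ C * Real.log w := by
  obtain ⟨M, hM, h⟩ := Wd33b62.mertens_all
  have hl2 : 0 < Real.log 2 := Real.log_pos (by norm_num)
  refine ⟨2 / Real.log 2 * Real.exp (M / Real.log 2), by positivity, ?_⟩
  intro w hw
  have hw' : (2 : ℝ) ≤ w := by exact_mod_cast hw
  have hlw1 : 0 < Real.log ((w : ℝ) + 1) := Real.log_pos (by linarith)
  have hm := (abs_le.1 (h 2 ((w : ℝ) + 1) le_rfl (by linarith))).2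
  have hset : (range (w + 1)).filter Nat.Prime = Pool.Agent.Wb58c63.PI 2 ((w : ℝ) + 1) := by
    ext p
    rw [Pool.Agent.Wb58c63.mem_PI, mem_filter, mem_range]
    constructor
    · rintro ⟨h1, h2⟩
      exact ⟨h2, by exact_mod_cast h2.two_le, by exact_mod_cast h1⟩
    · rintro ⟨h1, -, h3⟩
      exact ⟨by exact_mod_cast h3, h1⟩
  rw [hset]
  have h1 : ∏ p ∈ Pool.Agent.Wb58c63.PI 2 ((w : ℝ) + 1), (1 + 1 / (p : ℝ)) ≤
      Real.exp (∑ p ∈ Pool.Agent.Wb58c63.PI 2 ((w : ℝ) + 1), 1 / (p : ℝ)) := by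
    rw [Real.exp_sum]
    apply Finset.prod_le_prod
    · intro p _
      positivity
    · intro p _
      have := Real.add_one_le_exp (1 / (p : ℝ))
      linarith
  refine h1.trans ?_
  have h2 : ∑ p ∈ Pool.Agent.Wb58c63.PI 2 ((w : ℝ) + 1), 1 / (p : ℝ) ≤
      Real.log (Real.log ((w : ℝ) + 1) / Real.log 2) + M / Real.log 2 := by linarith
  refine (Real.exp_le_exp.2 h2).trans ?_
  rw [Real.exp_add, Real.exp_log (by positivity)]
  have h3 : Real.log ((w : ℝ) + 1) / Real.log 2 ≤ 2 * Real.log w / Real.log 2 :=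
    div_le_div_of_nonneg_right (g1_log w hw) hl2.le
  calc Real.log ((w : ℝ) + 1) / Real.log 2 * Real.exp (M / Real.log 2) ≤
      2 * Real.log w / Real.log 2 * Real.exp (M / Real.log 2) :=
        mul_le_mul_of_nonneg_right h3 (Real.exp_pos _).le
    _ = _ := by ring

end Pool.Agent.W33f
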