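import Pool.Agent.W_d33b62f_h41.Rd
import Pool.Agent.W_d33b62f_h37.LD

/-!
# MP_d33b62_nt: the points of a disc with `nm z ≡ N` mod `q`
-/

set_option autoImplicit false

noncomputable section

open Finset

namespace Pool.Agent.W33f

/-- The finite set of the points of the disc with `nm z ≡ N` mod `q`. -/
def DN (q : ℕ) (N : ℤ) (B : ℕ) : Finset (ℤ × ℤ) :=
  (Icc (-(B : ℤ)) B ×ˢ Icc (-(B : ℤ)) B).filter fun z => nm z ≤ B ∧ (q : ℤ) ∣ nm z - N

theorem mem_DN (q : ℕ) (N : ℤ) (B : ℕ) (z : ℤ × ℤ) : z ∈ DN q N B ↔ nm z ≤ B ∧ (q : ℤ) ∣ nm z - N := by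
  unfold DN
  rw [mem_filter, mem_product, mem_Icc, mem_Icc]
  constructor
  · exact fun h => h.2
  · rintro ⟨h1, h2⟩
    refine ⟨?_, h1, h2⟩
    have h3 : z.1 ^ 2 + z.2 ^ 2 ≤ B := h1
    have h4 := sq_nonneg z.1
    have h5 := sq_nonneg z.2
    have h6 := Int.le_self_sq z.1
    have h7 := Int.le_self_sq (-z.1)
    have h8 := Int.le_self_sq z.2
    have h9 := Int.le_self_sq (-z.2)
    rw [neg_sq] at h7 h9
    exact ⟨⟨by linarith, by linarith⟩, by linarith, by linarith⟩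

/-- Proof: `ld_classes` (`W_d33b62f_h37/LD.lean`) with `K` = the classes `z` with `z.1 ^ 2 + z.2 ^ 2 = N` in `ZMod q` (`rr_eq_card`). -/
theorem disc_nm (q B : ℕ) (N : ℤ) (hq : 1 ≤ q) :
    |((DN q N B).card : ℝ) - rr q N * (Real.pi * B / q ^ 2)| ≤ rr q N * (20 * (Real.sqrt B / q + 1)) := by
  classical
  haveI : NeZero q := ⟨by omega⟩
  obtain ⟨-, h⟩ := ld_classes q hq
    ((univ : Finset (ZMod q × ZMod q)).filter fun z => z.1 ^ 2 + z.2 ^ 2 = (N : ZMod q))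
    (B := (B : ℝ)) (Nat.cast_nonneg B)
  have e : {v : ℤ × ℤ | ((v.1 : ZMod q), (v.2 : ZMod q)) ∈
      ((univ : Finset (ZMod q × ZMod q)).filter fun z => z.1 ^ 2 + z.2 ^ 2 = (N : ZMod q)) ∧
      (v.1 : ℝ) ^ 2 + (v.2 : ℝ) ^ 2 ≤ (B : ℝ)} = ↑(DN q N B) := by
    ext v
    rw [mem_coe, mem_DN, Set.mem_ofPred_eq, mem_filter]
    have h1 : ((q : ℤ) ∣ nm v - N) ↔ (v.1 : ZMod q) ^ 2 + (v.2 : ZMod q) ^ 2 = (N : ZMod q) := by
      rw [← ZMod.intCast_zmod_eq_zero_iff_dvd]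
      unfold nm
      push_cast
      exact sub_eq_zero
    have h2 : nm v ≤ B ↔ (v.1 : ℝ) ^ 2 + (v.2 : ℝ) ^ 2 ≤ (B : ℝ) := by
      unfold nm
      constructor
      · intro h
        exact_mod_cast h
      · intro h
        exact_mod_cast h
    rw [h1, h2]
    constructor
    · rintro ⟨⟨-, a⟩, b⟩
      exact ⟨b, a⟩
    · rintro ⟨a, b⟩
      exact ⟨⟨mem_univ _, b⟩, a⟩
  rw [e, Set.ncard_coe_finset, ← rr_eq_card] at h
  exact h

end Pool.Agent.W33f
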