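import Pool.Agent.W_d33b62f_h41.R2

/-!
# MP_d33b62_nt: `rr` at the powers of an odd prime
-/

set_option autoImplicit false

noncomputable section

open Finset

namespace Pool.Agent.W33f

/-- The number of primitive classes (`p` does not divide both coordinates), compare `rr_range`. -/
def rp (p m : ℕ) (N : ℤ) : ℕ :=
  ((range m ×ˢ range m).filter fun z => (m : ℤ) ∣ nm ((z.1 : ℤ), (z.2 : ℤ)) - N ∧ ¬ (p ∣ z.1 ∧ p ∣ z.2)).card

theorem R3_key {p q x y s t s' N : ℤ} (hp : Prime p) (hq0 : q ≠ 0) (hq : p ∣ q) (hx : ¬ p ∣ 2 * x)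
    (h1 : p * q ∣ (x + q * s) ^ 2 + (y + q * t) ^ 2 - N) (h2 : p * q ∣ (x + q * s') ^ 2 + (y + q * t) ^ 2 - N) :
    p ∣ s - s' := by
  have h3 : p * q ∣ (2 * x * (s - s') + q * (s ^ 2 - s' ^ 2)) * q := by
    have h4 := dvd_sub h1 h2
    have e : (x + q * s) ^ 2 + (y + q * t) ^ 2 - N - ((x + q * s') ^ 2 + (y + q * t) ^ 2 - N)
        = (2 * x * (s - s') + q * (s ^ 2 - s' ^ 2)) * q := by ring
    rwa [e] at h4
  have h5 : p ∣ 2 * x * (s - s') + q * (s ^ 2 - s' ^ 2) := Int.dvd_of_mul_dvd_mul_right hq0 h3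
  have h6 : p ∣ 2 * x * (s - s') := (dvd_add_left (hq.mul_right _)).1 h5
  exact (hp.dvd_or_dvd h6).resolve_left hx

theorem R3_eq {m a b : ℕ} (ha : a < m) (hb : b < m) (h : (m : ℤ) ∣ (a : ℤ) - b) : a = b := by
  have h1 : (b : ℤ) ≡ a [ZMOD m] := Int.modEq_iff_dvd.2 h
  have h2 : b ≡ a [MOD m] := Int.natCast_modEq_iff.1 h1
  have h3 : b % m = a % m := h2
  rw [Nat.mod_eq_of_lt ha, Nat.mod_eq_of_lt hb] at h3
  exact h3.symm

theorem R3_two {p : ℕ} (hp : p.Prime) (h2 : p ≠ 2) {x : ℕ} (hx : ¬ p ∣ x) : ¬ (p : ℤ) ∣ 2 * (x : ℤ) := by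
  intro h
  have h1 : p ∣ 2 * x := by exact_mod_cast h
  rcases (Nat.Prime.dvd_mul hp).1 h1 with h3 | h3
  · exact h2 ((Nat.prime_dvd_prime_iff_eq hp Nat.prime_two).1 h3)
  · exact hx h3

/-- Lifting: over every primitive class mod `p ^ e` there are at most `p` classes mod `p ^ (e + 1)`: for
`z = (x + p ^ e s, y + p ^ e t)`, `0 ≤ s, t < p`, the condition is linear in `(s, t)` mod `p`:
`2 x s + 2 y t + (x ^ 2 + y ^ 2 - N) / p ^ e ≡ 0`, and `(2 x, 2 y) ≢ (0, 0)`. -/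
theorem rp_lift (p : ℕ) (hp : p.Prime) (h2 : p ≠ 2) (e : ℕ) (he : 1 ≤ e) (N : ℤ) :
    rp p (p ^ (e + 1)) N ≤ p * rp p (p ^ e) N := by
  classical
  have hpi : Prime (p : ℤ) := Nat.prime_iff_prime_int.1 hp
  set q : ℕ := p ^ e with hqdef
  have hq0 : 0 < q := pow_pos hp.pos e
  have hpq : p ∣ q := dvd_pow_self p (by omega)
  have hqi0 : (q : ℤ) ≠ 0 := by exact_mod_cast hq0.ne'
  have hpqi : (p : ℤ) ∣ q := by exact_mod_cast hpq
  have hpow : p ^ (e + 1) = p * q := by rw [pow_succ, mul_comm]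
  unfold rp
  refine card_le_mul_card_image_of_maps_to (f := fun z : ℕ × ℕ => (z.1 % q, z.2 % q)) ?_ p ?_
  · rintro ⟨a, b⟩ hz
    simp only [mem_filter, mem_product, mem_range] at hz ⊢
    obtain ⟨⟨ha, hb⟩, hd, hn⟩ := hz
    refine ⟨⟨Nat.mod_lt _ hq0, Nat.mod_lt _ hq0⟩, ?_, ?_⟩
    · have h3 : (q : ℤ) ∣ nm ((a : ℤ), (b : ℤ)) - N := by
        refine dvd_trans ?_ hd
        rw [hpow]
        push_cast
        exact dvd_mul_left _ _
      have ha' : (a : ℤ) = q * (a / q : ℕ) + (a % q : ℕ) := by exact_mod_cast (Nat.div_add_mod a q).symm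
      have hb' : (b : ℤ) = q * (b / q : ℕ) + (b % q : ℕ) := by exact_mod_cast (Nat.div_add_mod b q).symm
      have h4 : nm ((a : ℤ), (b : ℤ)) - N = (nm (((a % q : ℕ) : ℤ), ((b % q : ℕ) : ℤ)) - N)
          + q * (2 * (a / q : ℕ) * (a % q : ℕ) + q * (a / q : ℕ) ^ 2 + 2 * (b / q : ℕ) * (b % q : ℕ)
            + q * (b / q : ℕ) ^ 2) := by
        unfold nm
        simp only
        nth_rewrite 1 [ha']
        nth_rewrite 1 [hb']
        ring
      rw [h4] at h3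
      exact (dvd_add_left (dvd_mul_right _ _)).1 h3
    · rintro ⟨h3, h4⟩
      refine hn ⟨?_, ?_⟩
      · exact (Nat.dvd_mod_iff hpq).1 h3
      · exact (Nat.dvd_mod_iff hpq).1 h4
  · rintro ⟨x, y⟩ hb
    simp only [mem_filter, mem_product, mem_range] at hb
    obtain ⟨⟨hx, hy⟩, -, hn⟩ := hb
    have key : ∀ z : ℕ × ℕ, z ∈ ((range (p ^ (e + 1)) ×ˢ range (p ^ (e + 1))).filter fun z =>
        ((p ^ (e + 1) : ℕ) : ℤ) ∣ nm ((z.1 : ℤ), (z.2 : ℤ)) - N ∧ ¬ (p ∣ z.1 ∧ p ∣ z.2)) →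
        (z.1 % q, z.2 % q) = (x, y) → (z.1 : ℤ) = x + q * (z.1 / q : ℕ) ∧ (z.2 : ℤ) = y + q * (z.2 / q : ℕ) ∧
        z.1 / q < p ∧ z.2 / q < p ∧
        (p : ℤ) * q ∣ ((x : ℤ) + q * (z.1 / q : ℕ)) ^ 2 + (y + q * (z.2 / q : ℕ)) ^ 2 - N := by
      rintro ⟨a, b⟩ hz hxy
      simp only [mem_filter, mem_product, mem_range] at hz
      obtain ⟨⟨ha, hb⟩, hd, -⟩ := hz
      rw [Prod.mk.injEq] at hxy
      simp only at hxy
      have ha' : (a : ℤ) = x + q * (a / q : ℕ) := by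
        rw [← hxy.1]; exact_mod_cast (Nat.mod_add_div a q).symm
      have hb' : (b : ℤ) = y + q * (b / q : ℕ) := by
        rw [← hxy.2]; exact_mod_cast (Nat.mod_add_div b q).symm
      rw [hpow] at ha hb hd
      refine ⟨ha', hb', Nat.div_lt_of_lt_mul (by rwa [mul_comm] at ha), Nat.div_lt_of_lt_mul (by rwa [mul_comm] at hb), ?_⟩
      push_cast at hd
      unfold nm at hd
      simp only at hd
      rw [← ha', ← hb']
      exact hd
    by_cases hpx : p ∣ x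
    · have hpy : ¬ p ∣ y := fun h => hn ⟨hpx, h⟩
      have h3 := R3_two hp h2 hpy
      have hc : (range p).card = p := card_range p
      refine le_trans (card_le_card_of_injOn (t := range p) (fun z => z.1 / q) ?_ ?_) hc.le
      · intro z hz
        rw [mem_coe, mem_filter] at hz
        rw [mem_coe, mem_range]
        exact (key z hz.1 hz.2).2.2.1
      · intro z hz z' hz' hzz
        rw [mem_coe, mem_filter] at hz hz'
        simp only at hzz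
        obtain ⟨a1, a2, a3, a4, a5⟩ := key z hz.1 hz.2
        obtain ⟨b1, b2, b3, b4, b5⟩ := key z' hz'.1 hz'.2
        rw [← hzz] at b1 b5
        have h4 : (p : ℤ) ∣ (z.2 / q : ℕ) - (z'.2 / q : ℕ) := by
          refine R3_key (x := (y : ℤ)) (y := (x : ℤ)) (t := ((z.1 / q : ℕ) : ℤ)) (N := N) hpi hqi0 hpqi h3 ?_ ?_
          · rw [add_comm (((y : ℤ) + q * (z.2 / q : ℕ)) ^ 2)]; exact a5
          · rw [add_comm (((y : ℤ) + q * (z'.2 / q : ℕ)) ^ 2)]; exact b5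
        have h5 := R3_eq a4 b4 h4
        rw [← h5] at b2
        ext
        · exact_mod_cast a1.trans b1.symm
        · exact_mod_cast a2.trans b2.symm
    · have h3 := R3_two hp h2 hpx
      have hc : (range p).card = p := card_range p
      refine le_trans (card_le_card_of_injOn (t := range p) (fun z => z.2 / q) ?_ ?_) hc.le
      · intro z hz
        rw [mem_coe, mem_filter] at hz
        rw [mem_coe, mem_range]
        exact (key z hz.1 hz.2).2.2.2.1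
      · intro z hz z' hz' hzz
        rw [mem_coe, mem_filter] at hz hz'
        simp only at hzz
        obtain ⟨a1, a2, a3, a4, a5⟩ := key z hz.1 hz.2
        obtain ⟨b1, b2, b3, b4, b5⟩ := key z' hz'.1 hz'.2
        rw [← hzz] at b2 b5
        have h4 : (p : ℤ) ∣ (z.1 / q : ℕ) - (z'.1 / q : ℕ) :=
          R3_key (x := (x : ℤ)) (y := (y : ℤ)) (t := ((z.2 / q : ℕ) : ℤ)) (N := N) hpi hqi0 hpqi h3 a5 b5
        have h5 := R3_eq a3 b3 h4
        rw [← h5] at b1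
        ext
        · exact_mod_cast a1.trans b1.symm
        · exact_mod_cast a2.trans b2.symm

theorem R3_rp_le (p m : ℕ) (hm : m ≠ 0) (N : ℤ) : rp p m N ≤ rr m N := by
  rw [rr_range m hm]
  unfold rp
  refine card_le_card fun z hz => ?_
  rw [mem_filter] at hz ⊢
  exact ⟨hz.1, hz.2.1⟩

theorem R3_pow (p : ℕ) (hp : p.Prime) (h2 : p ≠ 2) (N : ℤ) (e : ℕ) : rp p (p ^ (e + 1)) N ≤ p ^ e * rp p p N := by
  induction e with
  | zero => rw [zero_add, pow_one, pow_zero, one_mul]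
  | succ e ih =>
    refine (rp_lift p hp h2 (e + 1) (by omega) N).trans ?_
    calc p * rp p (p ^ (e + 1)) N ≤ p * (p ^ e * rp p p N) := Nat.mul_le_mul_left p ih
      _ = p ^ (e + 1) * rp p p N := by ring

/-- Induction with `rp_lift`; `rp p p N ≤ rr p N ≤ 2 p`. -/
theorem rp_pow_le (p : ℕ) (hp : p.Prime) (h2 : p ≠ 2) (e : ℕ) (he : 1 ≤ e) (N : ℤ) :
    rp p (p ^ e) N ≤ 2 * p ^ e := by
  obtain ⟨e, rfl⟩ : ∃ d, e = d + 1 := ⟨e - 1, by omega⟩
  refine (R3_pow p hp h2 N e).trans ?_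
  have h1 : rp p p N ≤ 2 * p := (R3_rp_le p p hp.ne_zero N).trans (rr_prime_le p hp N)
  calc p ^ e * rp p p N ≤ p ^ e * (2 * p) := Nat.mul_le_mul_left _ h1
    _ = 2 * p ^ (e + 1) := by ring

theorem R3_nm (x y : ℤ) : nm (x, y) = x ^ 2 + y ^ 2 := rfl

theorem R3_eq_rp (p : ℕ) (hp : p.Prime) (e : ℕ) (N : ℤ)
    (hN : ∀ x y : ℕ, p ∣ x → p ∣ y → ¬ ((p ^ e : ℕ) : ℤ) ∣ nm ((x : ℤ), (y : ℤ)) - N) :
    rr (p ^ e) N = rp p (p ^ e) N := by
  rw [rr_range _ (pow_ne_zero _ hp.ne_zero)]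
  unfold rp
  congr 1
  refine filter_congr fun z _ => ?_
  constructor
  · intro h
    exact ⟨h, fun h' => hN z.1 z.2 h'.1 h'.2 h⟩
  · exact fun h => h.1

/-- `p ∤ N`: all classes are primitive, `rr p N = p - χ₄ p ≤ p + 1`. -/
theorem rr_pow_le (p : ℕ) (hp : p.Prime) (h2 : p ≠ 2) (e : ℕ) (he : 1 ≤ e) (N : ℤ) (hN : ¬ (p : ℤ) ∣ N) :
    rr (p ^ e) N ≤ p ^ (e - 1) * (p + 1) := by
  obtain ⟨e, rfl⟩ : ∃ d, e = d + 1 := ⟨e - 1, by omega⟩
  rw [R3_eq_rp p hp (e + 1) N, Nat.add_sub_cancel]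
  · refine (R3_pow p hp h2 N e).trans (Nat.mul_le_mul_left _ ?_)
    refine (R3_rp_le p p hp.ne_zero N).trans ?_
    have h1 := rr_prime p hp h2 N hN
    have h3 : ∀ a : ZMod 4, -1 ≤ ZMod.χ₄ a := by decide
    have h4 := h3 (p : ZMod 4)
    have h5 : (rr p N : ℤ) ≤ p + 1 := by linarith
    exact_mod_cast h5
  · intro x y hx hy h
    have h1 : (p : ℤ) ∣ ((p ^ (e + 1) : ℕ) : ℤ) := by exact_mod_cast dvd_pow_self p (by omega : e + 1 ≠ 0)
    have h3 := h1.trans h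
    rw [R3_nm] at h3
    have hx' : (p : ℤ) ∣ (x : ℤ) := by exact_mod_cast hx
    have hy' : (p : ℤ) ∣ (y : ℤ) := by exact_mod_cast hy
    have h4 : (p : ℤ) ∣ (x : ℤ) ^ 2 + (y : ℤ) ^ 2 :=
      dvd_add (dvd_pow hx' two_ne_zero) (dvd_pow hy' two_ne_zero)
    exact hN ((dvd_sub_right h4).1 h3)

theorem R3_split (p : ℕ) (hp : p.Prime) (e : ℕ) (N : ℤ) :
    rr (p ^ (e + 2)) ((p : ℤ) ^ 2 * N) ≤ rp p (p ^ (e + 2)) ((p : ℤ) ^ 2 * N) + rr (p ^ e) N * p ^ 2 := by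
  classical
  have hq0 : 0 < p ^ e := pow_pos hp.pos e
  have hp0 : 0 < p := hp.pos
  rw [rr_range _ (pow_ne_zero _ hp.ne_zero), rr_range (p ^ e) (pow_ne_zero _ hp.ne_zero)]
  set S := (range (p ^ (e + 2)) ×ˢ range (p ^ (e + 2))).filter fun z =>
    ((p ^ (e + 2) : ℕ) : ℤ) ∣ nm ((z.1 : ℤ), (z.2 : ℤ)) - (p : ℤ) ^ 2 * N with hS
  have h1 := card_filter_add_card_filter_not (s := S) (fun z : ℕ × ℕ => ¬ (p ∣ z.1 ∧ p ∣ z.2))
  rw [← h1]
  refine add_le_add ?_ ?_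
  · refine card_le_card fun z hz => ?_
    rw [mem_filter, hS, mem_filter] at hz
    rw [mem_filter]
    exact ⟨hz.1.1, hz.1.2, hz.2⟩
  · have hc : (range p ×ˢ range p).card = p ^ 2 := by rw [card_product, card_range, sq]
    rw [← hc, ← card_product]
    refine card_le_card_of_injOn
      (fun z => (((z.1 / p) % p ^ e, (z.2 / p) % p ^ e), ((z.1 / p) / p ^ e, (z.2 / p) / p ^ e))) ?_ ?_
    · rintro ⟨a, b⟩ hz
      simp only [hS, mem_coe, mem_filter, mem_product, mem_range, not_not] at hz ⊢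
      obtain ⟨⟨⟨ha, hb⟩, hd⟩, ⟨a', rfl⟩, ⟨b', rfl⟩⟩ := hz
      rw [Nat.mul_div_cancel_left _ hp0, Nat.mul_div_cancel_left _ hp0]
      have hpow : p ^ (e + 2) = p * (p ^ e * p) := by ring
      rw [hpow] at ha hb
      have ha2 : a' < p ^ e * p := Nat.lt_of_mul_lt_mul_left ha
      have hb2 : b' < p ^ e * p := Nat.lt_of_mul_lt_mul_left hb
      refine ⟨⟨⟨Nat.mod_lt _ hq0, Nat.mod_lt _ hq0⟩, ?_⟩, Nat.div_lt_of_lt_mul ha2, Nat.div_lt_of_lt_mul hb2⟩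
      have h3 : ((p ^ e : ℕ) : ℤ) ∣ nm ((a' : ℤ), (b' : ℤ)) - N := by
        have h4 : ((p ^ (e + 2) : ℕ) : ℤ) = (p : ℤ) ^ 2 * (p ^ e : ℕ) := by push_cast; ring
        have h5 : nm (((p * a' : ℕ) : ℤ), ((p * b' : ℕ) : ℤ)) - (p : ℤ) ^ 2 * N
            = (p : ℤ) ^ 2 * (nm ((a' : ℤ), (b' : ℤ)) - N) := by
          rw [R3_nm, R3_nm]; push_cast; ring
        rw [h4, h5] at hd
        refine Int.dvd_of_mul_dvd_mul_left ?_ hd
        have : (p : ℤ) ≠ 0 := by exact_mod_cast hp.ne_zero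
        positivity
      have ha' : (a' : ℤ) = (p ^ e : ℕ) * (a' / p ^ e : ℕ) + (a' % p ^ e : ℕ) := by
        exact_mod_cast (Nat.div_add_mod a' (p ^ e)).symm
      have hb' : (b' : ℤ) = (p ^ e : ℕ) * (b' / p ^ e : ℕ) + (b' % p ^ e : ℕ) := by
        exact_mod_cast (Nat.div_add_mod b' (p ^ e)).symm
      generalize (p ^ e : ℕ) = q at *
      have h4 : nm ((a' : ℤ), (b' : ℤ)) - N = (nm (((a' % q : ℕ) : ℤ), ((b' % q : ℕ) : ℤ)) - N)
          + q * (2 * (a' / q : ℕ) * (a' % q : ℕ) + q * (a' / q : ℕ) ^ 2 + 2 * (b' / q : ℕ) * (b' % q : ℕ)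
            + q * (b' / q : ℕ) ^ 2) := by
        unfold nm
        simp only
        nth_rewrite 1 [ha']
        nth_rewrite 1 [hb']
        ring
      rw [h4] at h3
      exact (dvd_add_left (dvd_mul_right _ _)).1 h3
    · rintro ⟨a, b⟩ hz ⟨a', b'⟩ hz' he
      simp only [hS, mem_coe, mem_filter, mem_product, mem_range, not_not] at hz hz'
      simp only [Prod.mk.injEq] at he
      obtain ⟨⟨-, -⟩, ⟨a, rfl⟩, ⟨b, rfl⟩⟩ := hz
      obtain ⟨⟨-, -⟩, ⟨a', rfl⟩, ⟨b', rfl⟩⟩ := hz'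
      simp only [Nat.mul_div_cancel_left _ hp0] at he
      obtain ⟨⟨e1, e2⟩, e3, e4⟩ := he
      have f1 : a = a' := by
        rw [← Nat.div_add_mod a (p ^ e), ← Nat.div_add_mod a' (p ^ e), e1, e3]
      have f2 : b = b' := by
        rw [← Nat.div_add_mod b (p ^ e), ← Nat.div_add_mod b' (p ^ e), e2, e4]
      rw [f1, f2]

/-- `v_p N ≤ f < e`. Strong induction on `f`: the primitive classes are at most `2 p ^ e`; for a class with `p ∣ x, y` (then `e ≥ 2`,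
`p ^ 2 ∣ N`, `f ≥ 2`): `x = p x'`, `y = p y'`, `x', y'` mod `p ^ (e - 1)` with `x' ^ 2 + y' ^ 2 ≡ N / p ^ 2` mod `p ^ (e - 2)`: `p ^ 2 rr (p ^ (e - 2)) (N / p ^ 2)`
classes. -/
theorem rr_pow_le' (p : ℕ) (hp : p.Prime) (h2 : p ≠ 2) (e f : ℕ) (hfe : f < e) (N : ℤ) (hN : ¬ (p : ℤ) ^ (f + 1) ∣ N) :
    rr (p ^ e) N ≤ 2 * (f + 1) * p ^ e := by
  induction f using Nat.strong_induction_on generalizing e N with
  | _ f ih =>
    by_cases h : ∃ x y : ℕ, p ∣ x ∧ p ∣ y ∧ ((p ^ e : ℕ) : ℤ) ∣ nm ((x : ℤ), (y : ℤ)) - N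
    · obtain ⟨x, y, hx, hy, hd⟩ := h
      have hx' : (p : ℤ) ∣ (x : ℤ) := by exact_mod_cast hx
      have hy' : (p : ℤ) ∣ (y : ℤ) := by exact_mod_cast hy
      have hsum : (p : ℤ) ^ 2 ∣ nm ((x : ℤ), (y : ℤ)) := by
        rw [R3_nm]
        exact dvd_add (pow_dvd_pow_of_dvd hx' 2) (pow_dvd_pow_of_dvd hy' 2)
      have hf1 : 1 ≤ f := by
        by_contra hf
        have hf0 : f = 0 := by omega
        subst hf0
        have h1 : (p : ℤ) ∣ ((p ^ e : ℕ) : ℤ) := by exact_mod_cast dvd_pow_self p (by omega : e ≠ 0)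
        have h3 : (p : ℤ) ∣ nm ((x : ℤ), (y : ℤ)) := (dvd_pow_self (p : ℤ) two_ne_zero).trans hsum
        have h4 := (dvd_sub_right h3).1 (h1.trans hd)
        rw [zero_add, pow_one] at hN
        exact hN h4
      have he2 : 2 ≤ e := by omega
      have hN2 : (p : ℤ) ^ 2 ∣ N := by
        have h1 : (p : ℤ) ^ 2 ∣ ((p ^ e : ℕ) : ℤ) := by exact_mod_cast pow_dvd_pow p he2
        exact (dvd_sub_right hsum).1 (h1.trans hd)
      have hf2 : 2 ≤ f := by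
        by_contra hf
        have hf0 : f = 1 := by omega
        subst hf0
        exact hN hN2
      obtain ⟨N', rfl⟩ := hN2
      obtain ⟨g, rfl⟩ : ∃ g, f = g + 2 := ⟨f - 2, by omega⟩
      obtain ⟨d, rfl⟩ : ∃ d, e = d + 2 := ⟨e - 2, by omega⟩
      have hN' : ¬ (p : ℤ) ^ (g + 1) ∣ N' := by
        intro h
        apply hN
        have h1 : (p : ℤ) ^ (g + 2 + 1) = (p : ℤ) ^ 2 * (p : ℤ) ^ (g + 1) := by ring
        rw [h1]
        exact mul_dvd_mul_left _ h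
      have h3 := ih g (by omega) d (by omega) N' hN'
      refine (R3_split p hp d N').trans ?_
      have h4 := rp_pow_le p hp h2 (d + 2) (by omega) ((p : ℤ) ^ 2 * N')
      calc rp p (p ^ (d + 2)) ((p : ℤ) ^ 2 * N') + rr (p ^ d) N' * p ^ 2
          ≤ 2 * p ^ (d + 2) + 2 * (g + 1) * p ^ d * p ^ 2 := add_le_add h4 (Nat.mul_le_mul_right _ h3)
        _ = 2 * (g + 2) * p ^ (d + 2) := by ring
        _ ≤ 2 * (g + 2 + 1) * p ^ (d + 2) := by
            refine Nat.mul_le_mul_right _ ?_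
            omega
    · push Not at h
      rw [R3_eq_rp p hp e N (fun x y hx hy => h x y hx hy)]
      refine (rp_pow_le p hp h2 e (by omega) N).trans ?_
      refine Nat.mul_le_mul_right _ ?_
      omega

end Pool.Agent.W33f
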