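import Pool.Agent.W_d33b62f_h41.R1
import Pool.Agent.W_d33b62f_h41.R3

/-!
# MP_d33b62_nt: `rr` for the modulus `4 W`
-/

set_option autoImplicit false

noncomputable section

open Finset

namespace Pool.Agent.W33f

/-- Squarefree moduli: `rr_prod` and `rr_prime_le`. -/
theorem rr_sqf (d : ℕ) (hd : Squarefree d) (N : ℤ) : rr d N ≤ 2 ^ d.primeFactors.card * d := by
  have h1 : ∏ p ∈ d.primeFactors, p = d := Nat.prod_primeFactors_of_squarefree hd
  have h2 := rr_prod d.primeFactors (fun p hp => Nat.prime_of_mem_primeFactors hp) N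
  rw [h1] at h2
  rw [h2]
  calc ∏ p ∈ d.primeFactors, rr p N ≤ ∏ p ∈ d.primeFactors, 2 * p :=
        prod_le_prod' fun p hp => rr_prime_le p (Nat.prime_of_mem_primeFactors hp) N
    _ = 2 ^ d.primeFactors.card * d := by rw [prod_mul_distrib, prod_const, h1]

/-- The local constants. -/
def R6_c (E p : ℕ) : ℕ := if p = 2 then 32 else if p ∣ E then 2 * (E.factorization p + 1) else 1

theorem R6_c_one (E p : ℕ) : 1 ≤ R6_c E p := by
  unfold R6_c
  split_ifs <;> omega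

theorem R6_mem (w W p : ℕ) (h : Wok w W) : p ∈ (4 * W).primeFactors ↔ p ∈ (range (w + 1)).filter Nat.Prime := by
  obtain ⟨h1, h2, h3⟩ := h
  have hW : W ≠ 0 := by
    rintro rfl
    exact h3 (dvd_zero _)
  rw [Nat.mem_primeFactors, mem_filter, mem_range]
  constructor
  · rintro ⟨hp, hd, -⟩
    refine ⟨?_, hp⟩
    have h4 : p ∣ W := by
      rcases hp.dvd_mul.1 hd with h5 | h5
      · have h6 : p ∣ 8 := h5.trans ⟨2, rfl⟩
        exact h6.trans h2
      · exact h5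
    have := (h1 p hp).1 h4
    omega
  · rintro ⟨h4, hp⟩
    exact ⟨hp, ((h1 p hp).2 (by omega)).mul_left _, by omega⟩

theorem R6_loc (E : ℕ) (hE : E ≠ 0) (w W : ℕ) (hW : Wok w W)
    (hpE : ∀ p : ℕ, p.Prime → p ∣ E → p * E ∣ W) (N : ℤ) (m₀ : ℕ) (hm : Nat.Coprime m₀ W)
    (hN : N ≡ 2 * E * m₀ [ZMOD (4 * W : ℕ)]) (p : ℕ) (hp : p ∈ (4 * W).primeFactors) :
    (rr (p ^ (4 * W).factorization p) N : ℝ) ≤
      (R6_c E p : ℝ) * ((p ^ (4 * W).factorization p : ℕ) * (1 + 1 / (p : ℝ))) := by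
  have hpp : p.Prime := Nat.prime_of_mem_primeFactors hp
  have hpw : p ∣ W := by
    have h4 := (R6_mem w W p hW).1 hp
    rw [mem_filter, mem_range] at h4
    exact (hW.1 p hpp).2 (by omega)
  have hW0 : W ≠ 0 := by
    rintro rfl
    exact hW.2.2 (dvd_zero _)
  have h4W : 4 * W ≠ 0 := by omega
  have hp0 : (0 : ℝ) < p := by exact_mod_cast hpp.pos
  set e := (4 * W).factorization p with he
  have he1 : 1 ≤ e := (hpp.dvd_iff_one_le_factorization h4W).1 (hpw.mul_left _)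
  by_cases h2 : p = 2
  · have hc : R6_c E p = 32 := by unfold R6_c; rw [if_pos h2]
    have he5 : e ≤ 5 := by
      by_contra h
      push Not at h
      have h5 : p ^ 6 ∣ 4 * W := (hpp.pow_dvd_iff_le_factorization h4W).2 h
      rw [h2] at h5
      exact hW.2.2 (by omega)
    have h6 : rr (p ^ e) N ≤ 32 * p ^ e := by
      refine (rr_le_sq _ (pow_pos hpp.pos e).ne' N).trans ?_
      rw [sq]
      refine Nat.mul_le_mul_right _ ?_
      rw [h2]
      calc 2 ^ e ≤ 2 ^ 5 := Nat.pow_le_pow_right (by norm_num) he5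
        _ = 32 := by norm_num
    rw [hc]
    have h7 : (rr (p ^ e) N : ℝ) ≤ 32 * (p ^ e : ℕ) := by exact_mod_cast h6
    refine h7.trans ?_
    have h8 : (0 : ℝ) ≤ (p ^ e : ℕ) := Nat.cast_nonneg _
    have h9 : (0 : ℝ) ≤ 1 / (p : ℝ) := by positivity
    push_cast at h8 ⊢
    nlinarith [mul_nonneg h8 h9]
  have hco : ¬ p ∣ 2 * m₀ := by
    intro h
    rcases hpp.dvd_mul.1 h with h3 | h3
    · exact h2 ((Nat.prime_dvd_prime_iff_eq hpp Nat.prime_two).1 h3)
    · exact hpp.one_lt.ne' (Nat.dvd_one.1 (hm ▸ Nat.dvd_gcd h3 hpw))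
  have key : ∀ j ≤ e, (p : ℤ) ^ j ∣ N → p ^ j ∣ E := by
    intro j hj h
    have h3 : p ^ j ∣ 4 * W := (hpp.pow_dvd_iff_le_factorization h4W).2 hj
    have h4 : ((p : ℤ) ^ j) ∣ ((4 * W : ℕ) : ℤ) := by exact_mod_cast h3
    have h5 : (p : ℤ) ^ j ∣ 2 * E * m₀ := by
      have h6 := hN.dvd
      have h7 := (h4.trans h6).add h
      rwa [sub_add_cancel] at h7
    have h6 : p ^ j ∣ 2 * E * m₀ := by exact_mod_cast h5
    have h7 : p ^ j ∣ (2 * m₀) * E := by
      have : 2 * E * m₀ = (2 * m₀) * E := by ring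
      rwa [this] at h6
    refine Nat.Coprime.dvd_of_dvd_mul_left ?_ h7
    exact Nat.Coprime.pow_left _ ((Nat.Prime.coprime_iff_not_dvd hpp).2 hco)
  by_cases h3 : p ∣ E
  · have hc : R6_c E p = 2 * (E.factorization p + 1) := by
      unfold R6_c; rw [if_neg h2, if_pos h3]
    set f := E.factorization p with hf
    have h4 : p ^ (f + 1) ∣ 4 * W := by
      rw [pow_succ, mul_comm]
      exact ((Nat.mul_dvd_mul_left p (Nat.ordProj_dvd E p)).trans (hpE p hpp h3)).mul_left _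
    have hfe : f + 1 ≤ e := (hpp.pow_dvd_iff_le_factorization h4W).1 h4
    have h5 := rr_pow_le' p hpp h2 e f hfe N (fun h => by
      have h6 := key (f + 1) hfe h
      have h7 := (hpp.pow_dvd_iff_le_factorization hE).1 h6
      omega)
    rw [hc]
    have h7 : (rr (p ^ e) N : ℝ) ≤ (2 * (f + 1) : ℕ) * (p ^ e : ℕ) := by exact_mod_cast h5
    refine h7.trans (mul_le_mul_of_nonneg_left ?_ (Nat.cast_nonneg _))
    have h8 : (0 : ℝ) ≤ (p ^ e : ℕ) := Nat.cast_nonneg _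
    have h9 : (0 : ℝ) ≤ 1 / (p : ℝ) := by positivity
    nlinarith [mul_nonneg h8 h9]
  · have hc : R6_c E p = 1 := by
      unfold R6_c; rw [if_neg h2, if_neg h3]
    have h5 := rr_pow_le p hpp h2 e he1 N (fun h => by
      have h6 := key 1 he1 (by rwa [pow_one])
      rw [pow_one] at h6
      exact h3 h6)
    rw [hc, Nat.cast_one, one_mul]
    have h7 : (rr (p ^ e) N : ℝ) ≤ (p ^ (e - 1) * (p + 1) : ℕ) := by exact_mod_cast h5
    refine h7.trans (le_of_eq ?_)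
    obtain ⟨d, hd⟩ : ∃ d, e = d + 1 := ⟨e - 1, by omega⟩
    rw [hd, Nat.add_sub_cancel]
    push_cast
    field_simp
    rw [pow_succ]

/-- The modulus `4 W`.

Proof. `rr_fact`: the prime factors of `4 W` are the primes `≤ w`. `p = 2`: `2 ^ 5` exactly divides `4 W`; `rr ≤ (2 ^ 5) ^ 2` (`rr_le_sq`).
`p` odd, `p ∤ E`: `p ∤ N`, `rr ≤ p ^ (e - 1) (p + 1) = p ^ e (1 + 1 / p)`. `p ∣ E`, `f = v_p E`: `p ^ (f + 1) ∣ p E ∣ W`, so `f < e` and
`v_p N = f` (`N ≡ 2 E m₀` mod `p ^ (f + 1)`, `m₀` prime to `p`, `p` odd): `rr ≤ 2 (f + 1) p ^ e`. `C = 32 ∏_{p ∣ E} 2 (v_p E + 1)`. -/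
theorem rr_W (E : ℕ) (hE : E ≠ 0) (hE2 : Nat.Coprime E 2) : ∃ C : ℝ, 0 < C ∧ ∀ (w W : ℕ), Wok w W →
    (∀ p : ℕ, p.Prime → p ∣ E → p * E ∣ W) → ∀ (N : ℤ) (m₀ : ℕ), Nat.Coprime m₀ W →
      N ≡ 2 * E * m₀ [ZMOD (4 * W : ℕ)] →
        (rr (4 * W) N : ℝ) ≤ C * (4 * W : ℕ) * ∏ p ∈ (range (w + 1)).filter Nat.Prime, (1 + 1 / (p : ℝ)) := by
  classical
  refine ⟨((∏ p ∈ insert 2 E.primeFactors, R6_c E p : ℕ) : ℝ), ?_, ?_⟩
  · exact_mod_cast Finset.prod_pos fun p _ => R6_c_one E p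
  intro w W hW hpE N m₀ hm hN
  have hW0 : W ≠ 0 := by
    rintro rfl
    exact hW.2.2 (dvd_zero _)
  have h4W : 4 * W ≠ 0 := by omega
  have hS : (4 * W).primeFactors = (range (w + 1)).filter Nat.Prime := by
    ext p
    exact R6_mem w W p hW
  rw [← hS, rr_fact (4 * W) h4W N]
  push_cast
  have h3 : ((4 * W : ℕ) : ℝ) = ∏ p ∈ (4 * W).primeFactors, ((p ^ (4 * W).factorization p : ℕ) : ℝ) := by
    have h4 := Nat.prod_factorization_pow_eq_self h4W
    rw [Finsupp.prod, Nat.support_factorization] at h4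
    rw [← Nat.cast_prod, h4]
  have h4 : ∏ p ∈ (4 * W).primeFactors, (rr (p ^ (4 * W).factorization p) N : ℝ) ≤
      ∏ p ∈ (4 * W).primeFactors, (R6_c E p : ℝ) * (((p ^ (4 * W).factorization p : ℕ) : ℝ) * (1 + 1 / (p : ℝ))) :=
    prod_le_prod (fun _ _ => Nat.cast_nonneg _) fun p hp => R6_loc E hE w W hW hpE N m₀ hm hN p hp
  refine h4.trans ?_
  rw [prod_mul_distrib, prod_mul_distrib, ← h3, ← mul_assoc]
  push_cast
  have h5 : ∏ p ∈ (4 * W).primeFactors, R6_c E p ≤ ∏ p ∈ insert 2 E.primeFactors, R6_c E p := by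
    have h6 : ∏ p ∈ (4 * W).primeFactors, R6_c E p =
        ∏ p ∈ (4 * W).primeFactors ∩ insert 2 E.primeFactors, R6_c E p := by
      symm
      refine prod_subset inter_subset_left ?_
      intro p hp hp'
      have h7 : p ∉ insert 2 E.primeFactors := fun h => hp' (mem_inter.2 ⟨hp, h⟩)
      rw [mem_insert, not_or] at h7
      unfold R6_c
      rw [if_neg h7.1, if_neg]
      intro h8
      exact h7.2 (Nat.mem_primeFactors.2 ⟨Nat.prime_of_mem_primeFactors hp, h8, hE⟩)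
    rw [h6]
    exact prod_le_prod_of_subset_of_one_le' inter_subset_right fun p _ _ => R6_c_one E p
  have h6 : (∏ p ∈ (4 * W).primeFactors, (R6_c E p : ℝ)) ≤ ∏ p ∈ insert 2 E.primeFactors, (R6_c E p : ℝ) := by
    exact_mod_cast h5
  refine mul_le_mul_of_nonneg_right (mul_le_mul_of_nonneg_right h6 ?_) ?_
  · positivity
  · exact prod_nonneg fun p _ => by positivity

end Pool.Agent.W33f
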