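import Pool.Agent.W_d33b62f_h41.A0

/-!
# MP_d33b62_nt: the sum over the squarefree divisors
-/

set_option autoImplicit false

noncomputable section

open Finset

namespace Pool.Agent.W33f

/-- Proof: `∑_{d ∈ DS} C ^ ω(d) / d ^ 2 ≤ ∏_{w < p ≤ N} (1 + C / p ^ 2) - 1` (`N = ⌊T ^ (1 / 20)⌋`; `d ↦ d.primeFactors` is injective into the
nonempty subsets of the primes in `(w, N]`; `Finset.prod_one_add`) `≤ exp (C ∑_{n > w} 1 / n ^ 2) - 1 ≤ exp (C / w) - 1 ≤ 2 C / w`. -/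
theorem DS_sum (C : ℝ) (hC : 0 < C) (w : ℕ) (hw : 1 ≤ w) (hwC : C ≤ w) (T : ℕ) :
    ∑ d ∈ DS w T, C ^ d.primeFactors.card / (d : ℝ) ^ 2 ≤ 2 * C / w := by
  classical
  set N : ℕ := ⌊(T : ℝ) ^ (1 / 20 : ℝ)⌋₊ with hN
  set S : Finset ℕ := (Ioc w N).filter Nat.Prime with hS
  have hw0 : (0 : ℝ) < w := by exact_mod_cast hw
  have h1 : ∀ d ∈ DS w T, C ^ d.primeFactors.card / (d : ℝ) ^ 2 =
      ∏ p ∈ d.primeFactors, C / (p : ℝ) ^ 2 := by
    intro d hd
    have hsq := (mem_DS.1 hd).2.1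
    rw [Finset.prod_div_distrib, Finset.prod_const, Finset.prod_pow]
    have h2 : ((∏ p ∈ d.primeFactors, p : ℕ) : ℝ) = (d : ℝ) := by
      exact_mod_cast Nat.prod_primeFactors_of_squarefree hsq
    rw [Nat.cast_prod] at h2
    rw [h2]
  have hinj : Set.InjOn Nat.primeFactors (DS w T : Set ℕ) := by
    intro d hd e he hde
    have h2 := Nat.prod_primeFactors_of_squarefree (mem_DS.1 (Finset.mem_coe.1 hd)).2.1
    have h3 := Nat.prod_primeFactors_of_squarefree (mem_DS.1 (Finset.mem_coe.1 he)).2.1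
    rw [← h2, ← h3, hde]
  have himg : (DS w T).image Nat.primeFactors ⊆ S.powerset.erase ∅ := by
    intro U hU
    obtain ⟨d, hd, rfl⟩ := Finset.mem_image.1 hU
    obtain ⟨⟨h2, h3⟩, -, h4⟩ := mem_DS.1 hd
    rw [Finset.mem_erase, Finset.mem_powerset]
    refine ⟨?_, ?_⟩
    · rw [Ne, Nat.primeFactors_eq_empty]
      omega
    · intro p hp
      have h5 := Nat.prime_of_mem_primeFactors hp
      have h6 := Nat.le_of_dvd (by omega) (Nat.dvd_of_mem_primeFactors hp)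
      rw [hS, Finset.mem_filter, Finset.mem_Ioc]
      exact ⟨⟨h4 p hp, h6.trans h3⟩, h5⟩
  have hnn : ∀ p : ℕ, 0 ≤ C / (p : ℝ) ^ 2 := fun p => by positivity
  have h2 : ∑ d ∈ DS w T, C ^ d.primeFactors.card / (d : ℝ) ^ 2 ≤
      ∏ p ∈ S, (1 + C / (p : ℝ) ^ 2) - 1 := by
    rw [Finset.sum_congr rfl h1,
      ← Finset.sum_image (f := fun U : Finset ℕ => ∏ p ∈ U, C / (p : ℝ) ^ 2) hinj]
    refine (Finset.sum_le_sum_of_subset_of_nonneg himg fun U _ _ =>
      Finset.prod_nonneg fun p _ => hnn p).trans ?_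
    rw [Finset.prod_one_add, ← Finset.add_sum_erase S.powerset _ (Finset.empty_mem_powerset S),
      Finset.prod_empty]
    linarith
  have h3 : ∏ p ∈ S, (1 + C / (p : ℝ) ^ 2) ≤ Real.exp (∑ p ∈ S, C / (p : ℝ) ^ 2) := by
    rw [Real.exp_sum]
    refine Finset.prod_le_prod (fun p _ => ?_) fun p _ => ?_
    · have := hnn p
      linarith
    · rw [add_comm]
      exact Real.add_one_le_exp _
  have h4 : ∑ p ∈ S, C / (p : ℝ) ^ 2 ≤ C / w := by
    have h5 : ∑ p ∈ S, C / (p : ℝ) ^ 2 ≤ ∑ p ∈ Ioc w N, C / (p : ℝ) ^ 2 :=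
      Finset.sum_le_sum_of_subset_of_nonneg (Finset.filter_subset _ _) fun p _ _ => hnn p
    refine h5.trans ?_
    rcases le_total w N with h | h
    · have h6 := sum_Ioc_inv_sq_le_sub (α := ℝ) (k := w) (n := N) (by omega) h
      have h7 : ∑ p ∈ Ioc w N, C / (p : ℝ) ^ 2 = C * ∑ p ∈ Ioc w N, ((p : ℝ) ^ 2)⁻¹ := by
        rw [Finset.mul_sum]
        exact Finset.sum_congr rfl fun p _ => div_eq_mul_inv _ _
      rw [h7, div_eq_mul_inv]
      refine mul_le_mul_of_nonneg_left (h6.trans ?_) hC.le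
      have h8 : (0 : ℝ) ≤ (N : ℝ)⁻¹ := by positivity
      linarith
    · rw [Finset.Ioc_eq_empty_of_le h, Finset.sum_empty]
      positivity
  have h5 : C / w ≤ 1 := by
    rw [div_le_one hw0]
    exact hwC
  have h6 : Real.exp (C / w) - 1 ≤ 2 * (C / w) := by
    have h7 : (0 : ℝ) ≤ C / w := by positivity
    have h8 := Real.abs_exp_sub_one_le (x := C / w) (by rw [abs_of_nonneg h7]; exact h5)
    rw [abs_of_nonneg h7] at h8
    exact (le_abs_self _).trans h8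
  have h7 : Real.exp (∑ p ∈ S, C / (p : ℝ) ^ 2) ≤ Real.exp (C / w) := Real.exp_le_exp.2 h4
  have h8 : 2 * C / (w : ℝ) = 2 * (C / w) := by ring
  rw [h8]
  linarith

end Pool.Agent.W33f
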