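import Pool.Agent.W_d33b62f_h41.A1
import Pool.Agent.W_d33b62f_h41.A2

/-!
# MP_d33b62_nt: the average of `EE - 1` over a dyadic block
-/

set_option autoImplicit false

noncomputable section

open Finset

namespace Pool.Agent.W33f

/-- The size of the argument. -/
theorem A3_size (T M : ℕ) (hT : 3 ≤ T) : 2 * (T : ℝ) + (T : ℝ) ^ M ≤ (T : ℝ) ^ (M + 2) := by
  have hT' : (3 : ℝ) ≤ T := by exact_mod_cast hT
  have h1 : (1 : ℝ) ≤ (T : ℝ) ^ M := one_le_pow₀ (by linarith)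
  have h2 : (T : ℝ) ^ (M + 2) = (T : ℝ) ^ M * (T : ℝ) ^ 2 := by rw [pow_add]
  rw [h2]
  nlinarith [mul_nonneg (sub_nonneg.2 h1) (by linarith : (0 : ℝ) ≤ T),
    mul_nonneg (by linarith : (0 : ℝ) ≤ (T : ℝ) ^ M) (by nlinarith : (0 : ℝ) ≤ (T : ℝ) ^ 2 - 2 * T - 1)]

/-- The number of the points of a class. -/
theorem A3_cls (a₀ W al T d : ℕ) (u : ℤ) :
    (((SF a₀ W al T).filter fun xi => (d : ℤ) ∣ nm xi - a₀ - u).card : ℝ) ≤
      (({xi : ℤ × ℤ | ∃ q : ℕ, q ∈ Ioc T (2 * T) ∧ q.Prime ∧ q ≡ al [MOD 4 * W] ∧ nm xi = q + a₀ ∧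
        (q : ℤ) ≡ u [ZMOD d]}).ncard : ℝ) := by
  have hset : {xi : ℤ × ℤ | ∃ q : ℕ, q ∈ Ioc T (2 * T) ∧ q.Prime ∧ q ≡ al [MOD 4 * W] ∧ nm xi = q + a₀ ∧
        (q : ℤ) ≡ u [ZMOD d]} = (((SF a₀ W al T).filter fun xi => (d : ℤ) ∣ nm xi - a₀ - u : Finset (ℤ × ℤ)) :
          Set (ℤ × ℤ)) := by
    ext xi
    rw [Set.mem_setOf_eq, mem_coe, mem_filter, mem_SF]
    constructor
    · rintro ⟨q, h1, h2, h3, h4, h5⟩
      refine ⟨⟨q, h1, h2, h3, h4⟩, ?_⟩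
      rw [h4]
      have h6 := h5.symm.dvd
      have h7 : (q : ℤ) + a₀ - a₀ - u = q - u := by ring
      rw [h7]
      exact h6
    · rintro ⟨⟨q, h1, h2, h3, h4⟩, h5⟩
      refine ⟨q, h1, h2, h3, h4, ?_⟩
      rw [h4] at h5
      have h7 : (q : ℤ) + a₀ - a₀ - u = q - u := by ring
      rw [h7] at h5
      exact (Int.modEq_iff_dvd.2 h5).symm
  rw [hset, Set.ncard_coe_finset]

/-- `hF` is the conclusion of `FamF` for the class (`K = C (log w) ^ A`, `Z = T / (φ(4 W) log T)`).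

Proof. `EE_le` for `m = nm ξ - a₀ - u` (`|m| ≤ 2 T + T ^ M ≤ T ^ (M + 2)`), sum over `ξ`, exchange the sums:
`∑_ξ (EE - 1) ≤ ε #SF + 2 ∑_{d ∈ DS} C ^ ω(d) / d #{ξ ∈ SF : d ∣ nm ξ - a₀ - u}`, the last number is at most `K 4 ^ ω(d) / d Z` by `hF`
(`q = nm ξ - a₀`), `#SF ≤ K Z` (`d = 1`), and `DS_sum` with `4 C`. -/
theorem avg (C ε : ℝ) (hC : 0 < C) (hε : 0 < ε) (M : ℕ) : ∃ T₀ : ℕ, ∀ T ≥ T₀, ∀ (a₀ W al w : ℕ) (K Z : ℝ), 0 ≤ K → 0 ≤ Z →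
    1 ≤ w → 4 * C ≤ w →
    (∀ (d : ℕ) (u : ℤ), Squarefree d → (∀ p : ℕ, p.Prime → p ∣ d → w < p) → (d : ℝ) ≤ (T : ℝ) ^ (1 / 20 : ℝ) →
      (({xi : ℤ × ℤ | ∃ q : ℕ, q ∈ Ioc T (2 * T) ∧ q.Prime ∧ q ≡ al [MOD 4 * W] ∧ nm xi = q + a₀ ∧
        (q : ℤ) ≡ u [ZMOD d]}).ncard : ℝ) ≤ K * 4 ^ d.primeFactors.card / d * Z) →
    ∀ u : ℤ, |(u : ℝ)| ≤ (T : ℝ) ^ M →
      ∑ xi ∈ SF a₀ W al T, (if nm xi - a₀ = u then 0 else EE C w (nm xi - a₀ - u) - 1) ≤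
        (ε + 16 * C / w) * K * Z := by
  obtain ⟨T₀, hT₀⟩ := EE_le C ε hC hε (M + 2)
  refine ⟨max T₀ 3, fun T hT a₀ W al w K Z hK hZ hw hwC hF u hu => ?_⟩
  have hT1 : T₀ ≤ T := le_trans (le_max_left _ _) hT
  have hT3 : 3 ≤ T := le_trans (le_max_right _ _) hT
  have hT3' : (3 : ℝ) ≤ T := by exact_mod_cast hT3
  have hTp : (1 : ℝ) ≤ (T : ℝ) ^ (1 / 20 : ℝ) := Real.one_le_rpow (by linarith) (by norm_num)
  have hbd : ∀ xi ∈ SF a₀ W al T, (if nm xi - a₀ = u then 0 else EE C w (nm xi - a₀ - u) - 1) ≤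
      ε + 2 * ∑ d ∈ DS w T, (if (d : ℤ) ∣ nm xi - a₀ - u then C ^ d.primeFactors.card / (d : ℝ) else 0) := by
    intro xi hxi
    have hnn : 0 ≤ ∑ d ∈ DS w T, (if (d : ℤ) ∣ nm xi - a₀ - u then C ^ d.primeFactors.card / (d : ℝ) else 0) :=
      sum_nonneg fun d _ => by split_ifs <;> positivity
    split_ifs with h
    · linarith
    · obtain ⟨q, hq1, _, _, hq4⟩ := mem_SF.1 hxi
      have hne : nm xi - a₀ - u ≠ 0 := fun h0 => h (by linarith)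
      have hq5 : nm xi - a₀ - u = (q : ℤ) - u := by rw [hq4]; ring
      have hq6 : |((nm xi - a₀ - u : ℤ) : ℝ)| ≤ (T : ℝ) ^ (M + 2) := by
        rw [hq5]
        push_cast
        have h1 : (q : ℝ) ≤ 2 * T := by exact_mod_cast (mem_Ioc.1 hq1).2
        have h2 : (0 : ℝ) ≤ q := Nat.cast_nonneg q
        have h3 : |(q : ℝ) - u| ≤ |(q : ℝ)| + |(u : ℝ)| := abs_sub _ _
        rw [abs_of_nonneg h2] at h3
        linarith [A3_size T M hT3]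
      have h5 := hT₀ T hT1 w (nm xi - a₀ - u) hne hq6
      linarith
  refine le_trans (sum_le_sum hbd) ?_
  rw [sum_add_distrib, sum_const, nsmul_eq_mul, ← mul_sum, sum_comm]
  -- the number of all points
  have hcard : ((SF a₀ W al T).card : ℝ) ≤ K * Z := by
    have h1 := hF 1 0 squarefree_one (fun p hp hp1 => absurd (Nat.dvd_one.1 hp1) hp.one_lt.ne')
      (by simpa using hTp)
    have h2 := A3_cls a₀ W al T 1 0
    have h3 : (SF a₀ W al T).filter (fun xi => ((1 : ℕ) : ℤ) ∣ nm xi - a₀ - 0) = SF a₀ W al T :=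
      filter_true_of_mem fun xi _ => by simp
    rw [h3] at h2
    refine le_trans h2 (le_trans h1 ?_)
    simp
  -- the inner sums
  have hin : ∀ d ∈ DS w T, ∑ xi ∈ SF a₀ W al T,
      (if (d : ℤ) ∣ nm xi - a₀ - u then C ^ d.primeFactors.card / (d : ℝ) else 0) ≤
      K * Z * ((4 * C) ^ d.primeFactors.card / (d : ℝ) ^ 2) := by
    intro d hd
    obtain ⟨⟨hd2, hdT⟩, hsq, hdw⟩ := mem_DS.1 hd
    have hd0 : (0 : ℝ) < d := by exact_mod_cast (by omega : 0 < d)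
    have hdT' : (d : ℝ) ≤ (T : ℝ) ^ (1 / 20 : ℝ) :=
      le_trans (by exact_mod_cast hdT) (Nat.floor_le (by linarith))
    have h1 := hF d u hsq (fun p hp hpd => hdw p (Nat.mem_primeFactors.2 ⟨hp, hpd, by omega⟩)) hdT'
    have h2 := A3_cls a₀ W al T d u
    rw [← sum_filter, sum_const, nsmul_eq_mul]
    calc (((SF a₀ W al T).filter fun xi => (d : ℤ) ∣ nm xi - a₀ - u).card : ℝ) *
          (C ^ d.primeFactors.card / (d : ℝ))
        ≤ (K * 4 ^ d.primeFactors.card / d * Z) * (C ^ d.primeFactors.card / (d : ℝ)) :=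
          mul_le_mul_of_nonneg_right (le_trans h2 h1) (by positivity)
      _ = K * Z * ((4 * C) ^ d.primeFactors.card / (d : ℝ) ^ 2) := by
          rw [mul_pow]
          field_simp
  have hsum := sum_le_sum hin
  rw [← mul_sum] at hsum
  have hDS := DS_sum (4 * C) (by linarith) w hw hwC T
  have hKZ : 0 ≤ K * Z := mul_nonneg hK hZ
  have h1 : K * Z * ∑ d ∈ DS w T, (4 * C) ^ d.primeFactors.card / (d : ℝ) ^ 2 ≤ K * Z * (2 * (4 * C) / w) :=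
    mul_le_mul_of_nonneg_left hDS hKZ
  have h2 : (SF a₀ W al T).card * ε ≤ K * Z * ε := mul_le_mul_of_nonneg_right hcard hε.le
  calc _ ≤ K * Z * ε + 2 * (K * Z * (2 * (4 * C) / w)) := by linarith
    _ = (ε + 16 * C / w) * K * Z := by ring

end Pool.Agent.W33f
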