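import Pool.Agent.W_d33b62f_h41.B0

/-!
# MP_d33b62_nt: most circles of a block are good
-/

set_option autoImplicit false

noncomputable section

open Finset

namespace Pool.Agent.W33f

theorem B1_EE_one (C : ℝ) (hC : 0 < C) (w : ℕ) (m : ℤ) : 1 ≤ EE C w m := by
  unfold EE
  have h : ∏ p ∈ m.natAbs.primeFactors.filter (w < ·), (1 : ℝ) ≤
      ∏ p ∈ m.natAbs.primeFactors.filter (w < ·), (1 + C / p) := by
    apply prod_le_prod
    · intro p _; norm_num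
    · intro p _
      have : 0 ≤ C / (p : ℝ) := by positivity
      linarith
  rwa [prod_const_one] at h

open Classical in
/-- Markov for one shift. -/
theorem B1_markov {k : ℕ} (D : Dat k) (C η δ Z : ℝ) (T : ℕ) (hC : 0 < C)
    (hav : ∀ u : ℤ, |(u : ℝ)| ≤ T →
      ∑ xi ∈ SF D.a0 D.W D.al T, (if nm xi - D.a0 = u then 0 else EE C D.w (nm xi - D.a0 - u) - 1) ≤ δ * Z)
    (u : ℤ) (hu : |(u : ℝ)| ≤ T) :
    (((SF D.a0 D.W D.al T).filter fun xi => 1 + η < EE C D.w (nm xi - D.a0 - u)).card : ℝ) * η ≤ δ * Z := by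
  refine le_trans ?_ (hav u hu)
  have hne : ∀ xi ∈ SF D.a0 D.W D.al T, nm xi - D.a0 ≠ u := by
    intro xi hxi h
    obtain ⟨q, hq1, hq2, hq3, hq4⟩ := mem_SF.1 hxi
    have he : (q : ℤ) = u := by rw [← h, hq4]; ring
    rw [← he, Int.cast_natCast, abs_of_nonneg (by positivity)] at hu
    have h1 : q ≤ T := by exact_mod_cast hu
    have h2 := (mem_Ioc.1 hq1).1
    omega
  calc (((SF D.a0 D.W D.al T).filter fun xi => 1 + η < EE C D.w (nm xi - D.a0 - u)).card : ℝ) * η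
      = ∑ xi ∈ (SF D.a0 D.W D.al T).filter (fun xi => 1 + η < EE C D.w (nm xi - D.a0 - u)), η := by
        rw [sum_const, nsmul_eq_mul]
    _ ≤ ∑ xi ∈ (SF D.a0 D.W D.al T).filter (fun xi => 1 + η < EE C D.w (nm xi - D.a0 - u)),
          (if nm xi - D.a0 = u then 0 else EE C D.w (nm xi - D.a0 - u) - 1) := by
        refine sum_le_sum fun xi hxi => ?_
        rw [mem_filter] at hxi
        rw [if_neg (hne xi hxi.1)]
        linarith [hxi.2]
    _ ≤ _ := by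
        refine sum_le_sum_of_subset_of_nonneg (filter_subset _ _) fun xi hxi _ => ?_
        rw [if_neg (hne xi hxi)]
        linarith [B1_EE_one C hC D.w (nm xi - D.a0 - u)]

/-- Proof. The set of `hD` minus `GB` is covered by the `ξ ∈ SF` with `EE C w (nm ξ) > 1 + η` (`u = - a₀` in `hav`) and, for each `l`, those
with `EE C w (nm ξ - a₀ + h i - h l) > 1 + η` (`u = h l - h i`); by Markov (all the terms of the sums are `≥ 0`: `1 ≤ EE`, `C > 0`) each of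
these `k + 1` sets has at most `δ Z / η` elements. `nm ξ - a₀ ≠ u` as `nm ξ - a₀ = q > T ≥ |u|`. -/
theorem block {k : ℕ} (D : Dat k) (hok : D.ok) (v₀ : ℤ × ℤ) (C η δ κ Z : ℝ) (T : ℕ) (hC : 0 < C) (hη : 0 < η) (hZ : 0 ≤ Z)
    (hδ : (k + 1) * δ ≤ κ / 2 * η) (hT : 10 ^ 6 + D.a0 ≤ T)
    (hD : κ * Z ≤ (({xi : ℤ × ℤ | Int.gcd xi.1 xi.2 = 1 ∧ (D.a0 : ℤ) ∣ v₀.1 * xi.2 - v₀.2 * xi.1 ∧
      ∃ q : ℕ, q ∈ Ioc T (2 * T) ∧ q.Prime ∧ q ≡ D.al [MOD 4 * D.W] ∧ nm xi = q + D.a0}).ncard : ℝ))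
    (hav : ∀ u : ℤ, |(u : ℝ)| ≤ T →
      ∑ xi ∈ SF D.a0 D.W D.al T, (if nm xi - D.a0 = u then 0 else EE C D.w (nm xi - D.a0 - u) - 1) ≤ δ * Z) :
    κ / 2 * Z ≤ ((GB D v₀ C η T).card : ℝ) := by
  classical
  set SS := (SF D.a0 D.W D.al T).filter fun xi => Int.gcd xi.1 xi.2 = 1 ∧ (D.a0 : ℤ) ∣ v₀.1 * xi.2 - v₀.2 * xi.1 with hSS
  have hset : {xi : ℤ × ℤ | Int.gcd xi.1 xi.2 = 1 ∧ (D.a0 : ℤ) ∣ v₀.1 * xi.2 - v₀.2 * xi.1 ∧
      ∃ q : ℕ, q ∈ Ioc T (2 * T) ∧ q.Prime ∧ q ≡ D.al [MOD 4 * D.W] ∧ nm xi = q + D.a0} = (SS : Set (ℤ × ℤ)) := by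
    ext xi
    rw [hSS, Finset.mem_coe, mem_filter, mem_SF, Set.mem_setOf_eq]
    tauto
  rw [hset, Set.ncard_coe_finset] at hD
  set Bd : ℤ → Finset (ℤ × ℤ) := fun u =>
    (SF D.a0 D.W D.al T).filter fun xi => 1 + η < EE C D.w (nm xi - D.a0 - u) with hBd
  have hcov : SS ⊆ GB D v₀ C η T ∪ (Bd (-(D.a0 : ℤ)) ∪ univ.biUnion fun l : Fin k => Bd ((D.h l : ℤ) - D.h D.i)) := by
    intro xi hxi
    rw [hSS, mem_filter] at hxi
    rw [mem_union, mem_union, mem_biUnion]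
    by_cases h1 : 1 + η < EE C D.w (nm xi - D.a0 - (-(D.a0 : ℤ)))
    · right; left
      rw [hBd]
      exact mem_filter.2 ⟨hxi.1, h1⟩
    by_cases h2 : ∃ l : Fin k, 1 + η < EE C D.w (nm xi - D.a0 - ((D.h l : ℤ) - D.h D.i))
    · right; right
      obtain ⟨l, hl⟩ := h2
      exact ⟨l, mem_univ _, mem_filter.2 ⟨hxi.1, hl⟩⟩
    · left
      push Not at h2
      rw [not_lt] at h1
      rw [mem_GB]
      refine ⟨mem_SF.1 hxi.1, hxi.2.1, hxi.2.2, ?_, fun l => ?_⟩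
      · have e : nm xi - D.a0 - (-(D.a0 : ℤ)) = nm xi := by ring
        rwa [e] at h1
      · have e : nm xi - D.a0 - ((D.h l : ℤ) - D.h D.i) = nm xi - D.a0 + D.h D.i - D.h l := by ring
        have := h2 l
        rwa [e] at this
  have hTr : (10 : ℝ) ^ 6 + D.a0 ≤ T := by exact_mod_cast hT
  have ha0 : (0 : ℝ) ≤ D.a0 := by positivity
  have hu0 : |((-(D.a0 : ℤ) : ℤ) : ℝ)| ≤ T := by
    rw [Int.cast_neg, abs_neg, Int.cast_natCast, abs_of_nonneg ha0]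
    linarith
  have hul : ∀ l : Fin k, |(((D.h l : ℤ) - D.h D.i : ℤ) : ℝ)| ≤ T := by
    intro l
    have h1 : (D.h l : ℝ) ≤ 10 ^ 6 := by exact_mod_cast hok.hh l
    have h2 : (D.h D.i : ℝ) ≤ 10 ^ 6 := by exact_mod_cast hok.hh D.i
    have h3 : (0 : ℝ) ≤ D.h l := by positivity
    have h4 : (0 : ℝ) ≤ D.h D.i := by positivity
    push_cast
    rw [abs_le]
    constructor <;> linarith
  have hM0 := B1_markov D C η δ Z T hC hav _ hu0
  have hMl := fun l => B1_markov D C η δ Z T hC hav _ (hul l)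
  have hc1 : (SS.card : ℝ) ≤ (GB D v₀ C η T).card + ((Bd (-(D.a0 : ℤ))).card +
      ∑ l : Fin k, ((Bd ((D.h l : ℤ) - D.h D.i)).card : ℝ)) := by
    have h1 := (card_le_card hcov).trans (card_union_le _ _)
    have h2 := card_union_le (Bd (-(D.a0 : ℤ))) (univ.biUnion fun l : Fin k => Bd ((D.h l : ℤ) - D.h D.i))
    have h3 := card_biUnion_le (s := (univ : Finset (Fin k))) (t := fun l => Bd ((D.h l : ℤ) - D.h D.i))
    have h4 : SS.card ≤ (GB D v₀ C η T).card + ((Bd (-(D.a0 : ℤ))).card +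
      ∑ l : Fin k, (Bd ((D.h l : ℤ) - D.h D.i)).card) := by omega
    exact_mod_cast h4
  have hc2 : ((Bd (-(D.a0 : ℤ))).card + ∑ l : Fin k, ((Bd ((D.h l : ℤ) - D.h D.i)).card : ℝ)) * η ≤
      (k + 1) * (δ * Z) := by
    rw [add_mul, sum_mul]
    have h1 : ∑ l : Fin k, ((Bd ((D.h l : ℤ) - D.h D.i)).card : ℝ) * η ≤ ∑ _l : Fin k, δ * Z :=
      sum_le_sum fun l _ => hMl l
    rw [sum_const, card_univ, Fintype.card_fin, nsmul_eq_mul] at h1
    have h2 : ((Bd (-(D.a0 : ℤ))).card : ℝ) * η ≤ δ * Z := hM0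
    linarith
  have hc3 : ((Bd (-(D.a0 : ℤ))).card + ∑ l : Fin k, ((Bd ((D.h l : ℤ) - D.h D.i)).card : ℝ)) * η ≤
      (κ / 2 * Z) * η := by
    refine hc2.trans ?_
    have := mul_le_mul_of_nonneg_right hδ hZ
    linarith
  have hc4 := le_of_mul_le_mul_right hc3 hη
  linarith

end Pool.Agent.W33f
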