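import Pool.Agent.W_d33b62f_h41.B0

/-!
# MP_d33b62_nt: the sum of `mu` over the family
-/

set_option autoImplicit false

noncomputable section

open Finset

namespace Pool.Agent.W33f

/-- The blocks are disjoint (`2 ^ j < a ≤ 2 ^ (j + 1)`); on the block `mu W a = π / (2 W a) ≥ π / (4 W 2 ^ j)`;
`log 2 ^ j = j log 2`. -/
theorem JJ_mu {k : ℕ} (D : Dat k) (v₀ : ℤ × ℤ) (C η κ : ℝ) (j₀ M : ℕ) (hj : 1 ≤ j₀) (hW : 1 ≤ D.W)
    (hB : ∀ j ∈ Ico j₀ (M * j₀), κ * ZZ D.W j ≤ ((GB D v₀ C η (2 ^ j)).card : ℝ)) :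
    κ * (Real.pi / (4 * D.W * (4 * D.W).totient * Real.log 2)) * ∑ j ∈ Ico j₀ (M * j₀), (1 / (j : ℝ)) ≤
      ∑ xi ∈ JJ D v₀ C η j₀ M, mu D.W (D.a xi) := by
  classical
  have hdis : Set.PairwiseDisjoint (↑(Ico j₀ (M * j₀)) : Set ℕ) (fun j => GB D v₀ C η (2 ^ j)) := by
    intro i _ j _ hij
    rw [Function.onFun, Finset.disjoint_left]
    intro xi hx hy
    obtain ⟨⟨q, hq, _, _, h1⟩, _⟩ := mem_GB.1 hx
    obtain ⟨⟨q', hq', _, _, h2⟩, _⟩ := mem_GB.1 hy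
    have hqq : q = q' := by
      have := h1.symm.trans h2
      omega
    subst hqq
    rw [mem_Ioc] at hq hq'
    apply hij
    rcases lt_trichotomy i j with h | h | h
    · have h3 : 2 ^ (i + 1) ≤ 2 ^ j := Nat.pow_le_pow_right (by norm_num) h
      rw [pow_succ] at h3
      omega
    · exact h
    · have h3 : 2 ^ (j + 1) ≤ 2 ^ i := Nat.pow_le_pow_right (by norm_num) h
      rw [pow_succ] at h3
      omega
  unfold JJ
  rw [sum_biUnion hdis, mul_sum]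
  refine sum_le_sum fun j hjm => ?_
  have hj1 : 1 ≤ j := hj.trans (mem_Ico.1 hjm).1
  have hj0 : (0 : ℝ) < j := by exact_mod_cast hj1
  have hW0 : (0 : ℝ) < D.W := by exact_mod_cast hW
  have hφ : (0 : ℝ) < ((4 * D.W).totient : ℝ) := by
    exact_mod_cast Nat.totient_pos.2 (by omega)
  have hl2 : 0 < Real.log 2 := Real.log_pos (by norm_num)
  have h2 : ∀ xi ∈ GB D v₀ C η (2 ^ j), Real.pi / (4 * D.W * 2 ^ j) ≤ mu D.W (D.a xi) := by
    intro xi hxi
    obtain ⟨⟨q, hq, hqp, _, h1⟩, _⟩ := mem_GB.1 hxi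
    rw [a_eq h1]
    unfold mu
    rw [mem_Ioc] at hq
    have hq0 : (0 : ℝ) < q := by exact_mod_cast hqp.pos
    have hq2 : (q : ℝ) ≤ 2 * 2 ^ j := by exact_mod_cast hq.2
    rw [div_le_div_iff₀ (by positivity) (by positivity)]
    refine mul_le_mul_of_nonneg_left ?_ Real.pi_pos.le
    nlinarith
  have h3 := card_nsmul_le_sum _ _ _ h2
  rw [nsmul_eq_mul] at h3
  have h5 : κ * ZZ D.W j * (Real.pi / (4 * D.W * 2 ^ j)) ≤
      ((GB D v₀ C η (2 ^ j)).card : ℝ) * (Real.pi / (4 * D.W * 2 ^ j)) :=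
    mul_le_mul_of_nonneg_right (hB j hjm) (by positivity)
  have h6 : κ * (Real.pi / (4 * D.W * (4 * D.W).totient * Real.log 2)) * (1 / (j : ℝ)) =
      κ * ZZ D.W j * (Real.pi / (4 * D.W * 2 ^ j)) := by
    unfold ZZ
    rw [Nat.cast_pow, Nat.cast_ofNat, Real.log_pow]
    field_simp
  rw [h6]
  exact h5.trans h3

/-- `1 / j ≥ log ((j + 1) / j)`. -/
theorem harm (j₀ M : ℕ) (hj : 1 ≤ j₀) (hM : 1 ≤ M) : Real.log M ≤ ∑ j ∈ Ico j₀ (M * j₀), (1 / (j : ℝ)) := by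
  have hj0 : (0 : ℝ) < j₀ := by exact_mod_cast hj
  have key : ∀ n : ℕ, j₀ ≤ n → Real.log ((n : ℝ) / j₀) ≤ ∑ j ∈ Ico j₀ n, (1 / (j : ℝ)) := by
    intro n hn
    induction n, hn using Nat.le_induction with
    | base => simp [hj0.ne']
    | succ n hn ih =>
      have hn0 : (0 : ℝ) < n := lt_of_lt_of_le hj0 (by exact_mod_cast hn)
      rw [sum_Ico_succ_top hn]
      have e1 : ((n + 1 : ℕ) : ℝ) / j₀ = (n : ℝ) / j₀ * (1 + 1 / n) := by
        push_cast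
        field_simp
      rw [e1, Real.log_mul (by positivity) (by positivity)]
      have e2 : Real.log (1 + 1 / (n : ℝ)) ≤ 1 / n := by
        have := Real.log_le_sub_one_of_pos (show (0 : ℝ) < 1 + 1 / (n : ℝ) by positivity)
        linarith
      linarith
  have h1 := key (M * j₀) (Nat.le_mul_of_pos_left j₀ hM)
  have e : ((M * j₀ : ℕ) : ℝ) / j₀ = M := by
    push_cast
    field_simp
  rwa [e] at h1

end Pool.Agent.W33f
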