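import Pool.Agent.W_d33b62f_h41.B0

/-!
# MP_d33b62_nt: the pair sum over the family
-/

set_option autoImplicit false

noncomputable section

open Finset

namespace Pool.Agent.W33f

theorem B3_EE_one (C : ℝ) (hC : 0 < C) (w : ℕ) (m : ℤ) : 1 ≤ EE C w m := by
  unfold EE
  have h : ∏ p ∈ m.natAbs.primeFactors.filter (w < ·), (1 : ℝ) ≤
      ∏ p ∈ m.natAbs.primeFactors.filter (w < ·), (1 + C / p) := by
    apply prod_le_prod
    · intro p _; norm_num
    · intro p _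
      have : 0 ≤ C / (p : ℝ) := by positivity
      linarith
  rwa [prod_const_one] at h

theorem B3_EE_neg (C : ℝ) (w : ℕ) (m : ℤ) : EE C w (-m) = EE C w m := by
  unfold EE
  rw [Int.natAbs_neg]

theorem B3_biU {α : Type} [DecidableEq α] (t : ℕ → Finset α) (g : α → ℝ) (hg : ∀ x, 0 ≤ g x) (s : Finset ℕ) :
    ∑ x ∈ s.biUnion t, g x ≤ ∑ i ∈ s, ∑ x ∈ t i, g x := by
  classical
  induction s using Finset.induction_on with
  | empty => simp
  | insert a s ha ih =>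
    rw [biUnion_insert, sum_insert ha]
    have h1 := sum_union_inter (s₁ := t a) (s₂ := s.biUnion t) (f := g)
    have h2 : 0 ≤ ∑ x ∈ t a ∩ s.biUnion t, g x := sum_nonneg fun x _ => hg x
    linarith

theorem B3_mu_nonneg (W a : ℕ) : 0 ≤ mu W a := by
  unfold mu
  have := Real.pi_pos
  positivity

/-- Proof. `EE = 1 + (EE - 1)`. For a fixed `ξ ∈ J`, `u = a ξ ≤ 2 ^ (M j₀)`; `EE C w (a - a') = EE C w (a' - a)` (only `natAbs`); the sum over `ξ' ∈ J` is at most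
the sum over the blocks (`Finset.sum_biUnion_le` or disjointness; nonnegative terms: `1 ≤ EE`), `GB ⊆ SF`, `mu W a' ≤ π / (2 W 2 ^ j)` on the block and `hav`:
`∑_{ξ'} mu' (EE - 1) ≤ ∑_j π / (2 W 2 ^ j) δ ZZ_j = δ π / (2 W φ log 2) ∑ 1 / j`. -/
theorem JJ_pair {k : ℕ} (D : Dat k) (v₀ : ℤ × ℤ) (C η δ : ℝ) (j₀ M : ℕ) (hj : 1 ≤ j₀) (hC : 0 < C) (hW : 1 ≤ D.W)
    (hav : ∀ j ∈ Ico j₀ (M * j₀), ∀ u : ℤ, |(u : ℝ)| ≤ 2 ^ (M * j₀) →
      ∑ xi ∈ SF D.a0 D.W D.al (2 ^ j), (if nm xi - D.a0 = u then 0 else EE C D.w (nm xi - D.a0 - u) - 1) ≤ δ * ZZ D.W j) :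
    ∑ xi ∈ JJ D v₀ C η j₀ M, ∑ xi' ∈ JJ D v₀ C η j₀ M, (if D.a xi = D.a xi' then 0 else
        mu D.W (D.a xi) * mu D.W (D.a xi') * EE C D.w ((D.a xi : ℤ) - D.a xi')) ≤
      (∑ xi ∈ JJ D v₀ C η j₀ M, mu D.W (D.a xi)) ^ 2 + (∑ xi ∈ JJ D v₀ C η j₀ M, mu D.W (D.a xi)) *
        (δ * (Real.pi / (2 * D.W * (4 * D.W).totient * Real.log 2)) * ∑ j ∈ Ico j₀ (M * j₀), (1 / (j : ℝ))) := by
  classical
  have hpi := Real.pi_pos
  have hWpos : (0 : ℝ) < D.W := by exact_mod_cast hW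
  set g : ℤ → ℤ × ℤ → ℝ := fun u xi' => if (D.a xi' : ℤ) = u then 0 else
    mu D.W (D.a xi') * (EE C D.w ((D.a xi' : ℤ) - u) - 1) with hg
  have hg0 : ∀ u xi', 0 ≤ g u xi' := by
    intro u xi'
    simp only [hg]
    split_ifs
    · exact le_rfl
    · exact mul_nonneg (B3_mu_nonneg _ _) (by linarith [B3_EE_one C hC D.w ((D.a xi' : ℤ) - u)])
  -- the inner sum
  have hin : ∀ u : ℤ, |(u : ℝ)| ≤ 2 ^ (M * j₀) → ∑ xi' ∈ JJ D v₀ C η j₀ M, g u xi' ≤
      δ * (Real.pi / (2 * D.W * (4 * D.W).totient * Real.log 2)) * ∑ j ∈ Ico j₀ (M * j₀), (1 / (j : ℝ)) := by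
    intro u hu
    have h1 : ∑ xi' ∈ JJ D v₀ C η j₀ M, g u xi' ≤
        ∑ j ∈ Ico j₀ (M * j₀), ∑ xi' ∈ GB D v₀ C η (2 ^ j), g u xi' := by
      unfold JJ
      exact B3_biU (fun j => GB D v₀ C η (2 ^ j)) (g u) (hg0 u) (Ico j₀ (M * j₀))
    refine h1.trans ?_
    rw [mul_sum]
    refine sum_le_sum fun j hjm => ?_
    have hj1 : 1 ≤ j := hj.trans (mem_Ico.1 hjm).1
    have hjpos : (0 : ℝ) < j := by exact_mod_cast hj1
    have h2 : ∑ xi' ∈ GB D v₀ C η (2 ^ j), g u xi' ≤ ∑ xi' ∈ SF D.a0 D.W D.al (2 ^ j),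
        (Real.pi / (2 * D.W * 2 ^ j)) * (if nm xi' - D.a0 = u then 0 else EE C D.w (nm xi' - D.a0 - u) - 1) := by
      have h3 : ∑ xi' ∈ GB D v₀ C η (2 ^ j), g u xi' ≤ ∑ xi' ∈ SF D.a0 D.W D.al (2 ^ j), g u xi' := by
        apply sum_le_sum_of_subset_of_nonneg
        · unfold GB
          exact filter_subset _ _
        · intro x _ _
          exact hg0 u x
      refine h3.trans (sum_le_sum fun xi hxi => ?_)
      obtain ⟨q, hq1, hq2, hq3, hq4⟩ := mem_SF.1 hxi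
      have ha : D.a xi = q := a_eq hq4
      have he : nm xi - D.a0 = (q : ℤ) := by rw [hq4]; ring
      simp only [hg]
      rw [ha, he]
      split_ifs with h
      · rw [mul_zero]
      · have hEE := B3_EE_one C hC D.w ((q : ℤ) - u)
        apply mul_le_mul_of_nonneg_right _ (by linarith)
        unfold mu
        have hq : ((2 : ℝ) ^ j) < q := by
          have := (mem_Ioc.1 hq1).1
          exact_mod_cast this
        apply div_le_div_of_nonneg_left hpi.le (by positivity)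
        have : (2 : ℝ) * D.W * 2 ^ j ≤ 2 * D.W * q := by
          apply mul_le_mul_of_nonneg_left hq.le (by positivity)
        exact this
    refine h2.trans ?_
    rw [← mul_sum]
    have h4 := hav j hjm u hu
    have h5 : (Real.pi / (2 * D.W * 2 ^ j)) * ∑ xi' ∈ SF D.a0 D.W D.al (2 ^ j),
        (if nm xi' - D.a0 = u then 0 else EE C D.w (nm xi' - D.a0 - u) - 1) ≤
        (Real.pi / (2 * D.W * 2 ^ j)) * (δ * ZZ D.W j) :=
      mul_le_mul_of_nonneg_left h4 (by positivity)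
    refine h5.trans (le_of_eq ?_)
    unfold ZZ
    have hphi : (0 : ℝ) < (4 * D.W).totient := by
      exact_mod_cast Nat.totient_pos.2 (by omega)
    have hl2 : 0 < Real.log 2 := Real.log_pos (by norm_num)
    have e1 : Real.log ((2 ^ j : ℕ) : ℝ) = j * Real.log 2 := by
      push_cast
      rw [Real.log_pow]
    rw [e1]
    push_cast
    field_simp
  -- members of the family
  have hmem : ∀ xi ∈ JJ D v₀ C η j₀ M, |(((D.a xi : ℕ) : ℤ) : ℝ)| ≤ 2 ^ (M * j₀) := by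
    intro xi hxi
    unfold JJ at hxi
    obtain ⟨j, hjm, hx⟩ := mem_biUnion.1 hxi
    obtain ⟨⟨q, hq1, hq2, hq3, hq4⟩, -⟩ := mem_GB.1 hx
    have ha : D.a xi = q := a_eq hq4
    rw [ha]
    have h1 : q ≤ 2 * 2 ^ j := (mem_Ioc.1 hq1).2
    have h2 : 2 * 2 ^ j ≤ 2 ^ (M * j₀) := by
      rw [← pow_succ']
      exact Nat.pow_le_pow_right (by norm_num) (mem_Ico.1 hjm).2
    have h3 : (q : ℝ) ≤ 2 ^ (M * j₀) := by exact_mod_cast h1.trans h2
    rw [Int.cast_natCast, abs_of_nonneg (by positivity)]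
    exact h3
  calc ∑ xi ∈ JJ D v₀ C η j₀ M, ∑ xi' ∈ JJ D v₀ C η j₀ M, (if D.a xi = D.a xi' then 0 else
        mu D.W (D.a xi) * mu D.W (D.a xi') * EE C D.w ((D.a xi : ℤ) - D.a xi'))
      ≤ ∑ xi ∈ JJ D v₀ C η j₀ M, ∑ xi' ∈ JJ D v₀ C η j₀ M,
          (mu D.W (D.a xi) * mu D.W (D.a xi') + mu D.W (D.a xi) * g (D.a xi) xi') := by
        refine sum_le_sum fun xi _ => sum_le_sum fun xi' _ => ?_
        have hm := B3_mu_nonneg D.W (D.a xi)
        have hm' := B3_mu_nonneg D.W (D.a xi')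
        simp only [hg]
        by_cases h : D.a xi = D.a xi'
        · rw [if_pos h, if_pos (by exact_mod_cast h.symm)]
          have := mul_nonneg hm hm'
          linarith
        · rw [if_neg h, if_neg (by
            intro h'
            exact h (by exact_mod_cast h'.symm))]
          have e : EE C D.w ((D.a xi' : ℤ) - D.a xi) = EE C D.w ((D.a xi : ℤ) - D.a xi') := by
            rw [← B3_EE_neg]
            congr 1
            ring
          rw [e]
          apply le_of_eq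
          ring
    _ = (∑ xi ∈ JJ D v₀ C η j₀ M, mu D.W (D.a xi)) ^ 2 +
          ∑ xi ∈ JJ D v₀ C η j₀ M, mu D.W (D.a xi) * ∑ xi' ∈ JJ D v₀ C η j₀ M, g (D.a xi) xi' := by
        simp only [sum_add_distrib, ← mul_sum]
        rw [← sum_mul]
        ring
    _ ≤ _ := by
        have : ∑ xi ∈ JJ D v₀ C η j₀ M, mu D.W (D.a xi) * ∑ xi' ∈ JJ D v₀ C η j₀ M, g (D.a xi) xi' ≤
            ∑ xi ∈ JJ D v₀ C η j₀ M, mu D.W (D.a xi) *
              (δ * (Real.pi / (2 * D.W * (4 * D.W).totient * Real.log 2)) * ∑ j ∈ Ico j₀ (M * j₀), (1 / (j : ℝ))) :=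
          sum_le_sum fun xi hxi => mul_le_mul_of_nonneg_left (hin _ (hmem xi hxi)) (B3_mu_nonneg _ _)
        rw [← sum_mul] at this
        linarith

end Pool.Agent.W33f
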