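import Pool.Agent.W_d33b62f_h37.Df

/-!
# MP_d33b62_nt: definitions for `FAM0` (helper41)
-/

set_option autoImplicit false

noncomputable section

open Finset

namespace Pool.Agent.W33f

/-- The squarefree `d`, `2 ≤ d ≤ T ^ (1 / 20)`, all of whose prime factors are `> w`. -/
def DS (w T : ℕ) : Finset ℕ :=
  (Icc 2 ⌊(T : ℝ) ^ (1 / 20 : ℝ)⌋₊).filter fun d => Squarefree d ∧ ∀ p ∈ d.primeFactors, w < p

theorem mem_DS {w T d : ℕ} : d ∈ DS w T ↔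
    (2 ≤ d ∧ d ≤ ⌊(T : ℝ) ^ (1 / 20 : ℝ)⌋₊) ∧ Squarefree d ∧ ∀ p ∈ d.primeFactors, w < p := by
  unfold DS
  rw [mem_filter, mem_Icc]

open Classical in
/-- The points `ξ` with `nm ξ = q + a₀`, `T < q ≤ 2 T` a prime of the class `al` mod `4 W`. -/
def SF (a₀ W al T : ℕ) : Finset (ℤ × ℤ) :=
  (Icc (-(2 * T + a₀ : ℤ)) (2 * T + a₀) ×ˢ Icc (-(2 * T + a₀ : ℤ)) (2 * T + a₀)).filter fun xi =>
    ∃ q : ℕ, q ∈ Ioc T (2 * T) ∧ q.Prime ∧ q ≡ al [MOD 4 * W] ∧ nm xi = q + a₀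

theorem mem_SF {a₀ W al T : ℕ} {xi : ℤ × ℤ} : xi ∈ SF a₀ W al T ↔
    ∃ q : ℕ, q ∈ Ioc T (2 * T) ∧ q.Prime ∧ q ≡ al [MOD 4 * W] ∧ nm xi = q + a₀ := by
  unfold SF
  rw [mem_filter, mem_product, mem_Icc, mem_Icc]
  constructor
  · exact fun h => h.2
  · rintro ⟨q, hq, h⟩
    refine ⟨?_, q, hq, h⟩
    have h3 : xi.1 ^ 2 + xi.2 ^ 2 = q + a₀ := h.2.2
    have h4 := sq_nonneg xi.1
    have h5 := sq_nonneg xi.2
    have h6 := Int.le_self_sq xi.1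
    have h7 := Int.le_self_sq (-xi.1)
    have h8 := Int.le_self_sq xi.2
    have h9 := Int.le_self_sq (-xi.2)
    rw [neg_sq] at h7 h9
    have h10 : (q : ℤ) ≤ 2 * T := by exact_mod_cast (mem_Ioc.1 hq).2
    exact ⟨⟨by linarith, by linarith⟩, by linarith, by linarith⟩

end Pool.Agent.W33f
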