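import Pool.Agent.W_d33b62f_h41.A0

/-!
# MP_d33b62_nt: the product `EE` and its small divisors
-/

set_option autoImplicit false

noncomputable section

open Finset

namespace Pool.Agent.W33f

theorem A1_sum_sqrt (N : ℕ) : ∑ n ∈ Icc 1 N, 1 / Real.sqrt (n : ℝ) ≤ 2 * Real.sqrt N := by
  induction N with
  | zero => simp
  | succ N ih =>
    rw [sum_Icc_succ_top (by omega)]
    have h1 : 0 ≤ Real.sqrt (N : ℝ) := Real.sqrt_nonneg _
    have h2 : 0 < Real.sqrt ((N + 1 : ℕ) : ℝ) := Real.sqrt_pos.2 (by positivity)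
    have h3 : Real.sqrt (N : ℝ) ^ 2 = N := Real.sq_sqrt (Nat.cast_nonneg N)
    have h4 : Real.sqrt ((N + 1 : ℕ) : ℝ) ^ 2 = N + 1 := by
      rw [Real.sq_sqrt (by positivity)]
      push_cast
      ring
    have h5 : 1 / Real.sqrt ((N + 1 : ℕ) : ℝ) ≤
        2 * Real.sqrt ((N + 1 : ℕ) : ℝ) - 2 * Real.sqrt (N : ℝ) := by
      rw [div_le_iff₀ h2]
      nlinarith [sq_nonneg (Real.sqrt ((N + 1 : ℕ) : ℝ) - Real.sqrt (N : ℝ))]
    linarith

theorem A1_prod_exp {S : Finset ℕ} (f : ℕ → ℝ) (hf : ∀ p ∈ S, 0 ≤ f p) :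
    ∏ p ∈ S, (1 + f p) ≤ Real.exp (∑ p ∈ S, f p) := by
  rw [Real.exp_sum]
  refine prod_le_prod (fun p hp => by have := hf p hp; linarith) fun p _ => ?_
  have := Real.add_one_le_exp (f p)
  linarith

/-- The part of `EE` over the primes `> log T`. Proof: `n₀` = number of the primes `p ∣ m`, `p > log T`: `(log T) ^ n₀ ≤ |m| ≤ T ^ M`, so
`n₀ ≤ M log T / log log T` and the product is `≤ exp (C n₀ / log T) ≤ exp (C M / log log T)`. -/
theorem EE_tail (C ε : ℝ) (hC : 0 < C) (hε : 0 < ε) (M : ℕ) : ∃ T₀ : ℕ, ∀ T ≥ T₀, ∀ (w : ℕ) (m : ℤ), m ≠ 0 →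
    |(m : ℝ)| ≤ (T : ℝ) ^ M →
    ∏ p ∈ (m.natAbs.primeFactors.filter (w < ·)).filter (fun p : ℕ => Real.log T < p), (1 + C / (p : ℝ)) ≤ 1 + ε := by
  have hl : 0 < Real.log (1 + ε) := Real.log_pos (by linarith)
  obtain ⟨X, hX⟩ : ∃ X : ℝ, X = C * M / Real.log (1 + ε) + 1 := ⟨_, rfl⟩
  have hX1 : 1 ≤ X := by
    rw [hX]
    have : 0 ≤ C * M / Real.log (1 + ε) := by positivity
    linarith
  refine ⟨⌈Real.exp (Real.exp X)⌉₊, fun T hT w m hm0 hm => ?_⟩
  have hT1 : Real.exp (Real.exp X) ≤ T := (Nat.le_ceil _).trans (by exact_mod_cast hT)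
  have hT0 : (0 : ℝ) < T := (Real.exp_pos _).trans_le hT1
  have hL : Real.exp X ≤ Real.log T := by
    rw [Real.le_log_iff_exp_le hT0]
    exact hT1
  have hL0 : 0 < Real.log T := (Real.exp_pos _).trans_le hL
  have hLL : X ≤ Real.log (Real.log T) := by
    rw [Real.le_log_iff_exp_le hL0]
    exact hL
  obtain ⟨P, hP⟩ : ∃ P : Finset ℕ, P = (m.natAbs.primeFactors.filter (w < ·)).filter
    (fun p : ℕ => Real.log T < p) := ⟨_, rfl⟩
  rw [← hP]
  have hPm : ∀ p ∈ P, p ∈ m.natAbs.primeFactors ∧ Real.log T < p := by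
    intro p hp
    rw [hP, mem_filter, mem_filter] at hp
    exact ⟨hp.1.1, hp.2⟩
  have hdvd : (∏ p ∈ P, p) ∣ m.natAbs :=
    (prod_dvd_prod_of_subset P m.natAbs.primeFactors (fun p => p) (fun p hp => (hPm p hp).1)).trans
      (Nat.prod_primeFactors_dvd _)
  have hle : ((∏ p ∈ P, p : ℕ) : ℝ) ≤ |(m : ℝ)| := by
    have h1 : (∏ p ∈ P, p) ≤ m.natAbs := Nat.le_of_dvd (Int.natAbs_pos.2 hm0) hdvd
    have h2 : ((m.natAbs : ℕ) : ℝ) = |(m : ℝ)| := by
      rw [← Int.cast_abs, Int.abs_eq_natAbs]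
      simp
    rw [← h2]
    exact_mod_cast h1
  have hpow : Real.log T ^ P.card ≤ (T : ℝ) ^ M := by
    calc Real.log T ^ P.card = ∏ _p ∈ P, Real.log T := by rw [prod_const]
      _ ≤ ∏ p ∈ P, (p : ℝ) := prod_le_prod (fun _ _ => hL0.le) fun p hp => (hPm p hp).2.le
      _ = ((∏ p ∈ P, p : ℕ) : ℝ) := by push_cast; rfl
      _ ≤ _ := hle.trans hm
  have hcard : (P.card : ℝ) * Real.log (Real.log T) ≤ M * Real.log T := by
    have h1 := Real.log_le_log (pow_pos hL0 _) hpow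
    rwa [Real.log_pow, Real.log_pow] at h1
  have hcard2 : (P.card : ℝ) * X ≤ M * Real.log T :=
    (mul_le_mul_of_nonneg_left hLL (Nat.cast_nonneg _)).trans hcard
  calc ∏ p ∈ P, (1 + C / (p : ℝ)) ≤ Real.exp (∑ p ∈ P, C / (p : ℝ)) :=
        A1_prod_exp _ fun p _ => by positivity
    _ ≤ Real.exp (Real.log (1 + ε)) := by
        refine Real.exp_le_exp.2 ?_
        calc ∑ p ∈ P, C / (p : ℝ) ≤ ∑ _p ∈ P, C / Real.log T := by
              refine sum_le_sum fun p hp => ?_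
              exact div_le_div_of_nonneg_left hC.le hL0 (hPm p hp).2.le
          _ = P.card * (C / Real.log T) := by rw [sum_const, nsmul_eq_mul]
          _ ≤ Real.log (1 + ε) := by
              rw [mul_div_assoc', div_le_iff₀ hL0]
              have h5 : C * M ≤ Real.log (1 + ε) * X := by
                rw [hX, mul_add, mul_div_cancel₀ _ hl.ne']
                linarith
              have h6 : (P.card : ℝ) * C * X ≤ Real.log (1 + ε) * Real.log T * X := by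
                calc (P.card : ℝ) * C * X = C * (P.card * X) := by ring
                  _ ≤ C * (M * Real.log T) := mul_le_mul_of_nonneg_left hcard2 hC.le
                  _ = (C * M) * Real.log T := by ring
                  _ ≤ (Real.log (1 + ε) * X) * Real.log T := mul_le_mul_of_nonneg_right h5 hL0.le
                  _ = _ := by ring
              exact le_of_mul_le_mul_right h6 (by linarith)
    _ = 1 + ε := Real.exp_log (by linarith)

/-- The part of `EE` over the primes `≤ log T`. Proof: `P` = the primes `p ∣ m`, `w < p ≤ log T`. `∏_{p ∈ P} (1 + C / p) =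
∑_{S ⊆ P} ∏_{p ∈ S} C / p` (`Finset.prod_one_add`). `S = ∅` gives `1`; the `S ≠ ∅` with `d = ∏_{p ∈ S} p ≤ T ^ (1 / 20)` give
elements `d ∣ m` of `DS w T` (`S = d.primeFactors`), the term is `C ^ ω(d) / d`; for `d > T ^ (1 / 20)`:
`∏_{p ∈ S} C / p ≤ T ^ (-1 / 40) ∏_{p ∈ S} C / √p`, the sum is `≤ T ^ (-1 / 40) ∏_{p ∈ P} (1 + C / √p) ≤
T ^ (-1 / 40) exp (C ∑_{n ≤ log T} n ^ (-1 / 2)) ≤ T ^ (-1 / 40) exp (2 C √(log T)) → 0`. -/
theorem EE_head (C ε : ℝ) (hC : 0 < C) (hε : 0 < ε) : ∃ T₀ : ℕ, ∀ T ≥ T₀, ∀ (w : ℕ) (m : ℤ), m ≠ 0 →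
    ∏ p ∈ (m.natAbs.primeFactors.filter (w < ·)).filter (fun p : ℕ => ¬ Real.log T < p), (1 + C / (p : ℝ)) ≤
      1 + ε + ∑ d ∈ DS w T, (if (d : ℤ) ∣ m then C ^ d.primeFactors.card / (d : ℝ) else 0) := by
  obtain ⟨s0, hs0⟩ : ∃ s0 : ℝ, s0 = 40 * (2 * C + 1) + |Real.log ε| := ⟨_, rfl⟩
  have hs1 : 0 < s0 := by rw [hs0]; positivity
  refine ⟨⌈Real.exp (s0 ^ 2)⌉₊, fun T hT w m hm0 => ?_⟩
  have hT1 : Real.exp (s0 ^ 2) ≤ T := (Nat.le_ceil _).trans (by exact_mod_cast hT)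
  have hT0 : (0 : ℝ) < T := (Real.exp_pos _).trans_le hT1
  have hL : s0 ^ 2 ≤ Real.log T := by
    rw [Real.le_log_iff_exp_le hT0]
    exact hT1
  have hL0 : 0 < Real.log T := (pow_pos hs1 2).trans_le hL
  obtain ⟨s, hs⟩ : ∃ s : ℝ, s = Real.sqrt (Real.log T) := ⟨_, rfl⟩
  have hss : s ^ 2 = Real.log T := by rw [hs]; exact Real.sq_sqrt hL0.le
  have hs_ge : s0 ≤ s := by rw [hs]; exact Real.le_sqrt_of_sq_le hL
  obtain ⟨P, hP⟩ : ∃ P : Finset ℕ, P = (m.natAbs.primeFactors.filter (w < ·)).filter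
    (fun p : ℕ => ¬ Real.log T < p) := ⟨_, rfl⟩
  rw [← hP]
  have hPm : ∀ p ∈ P, p.Prime ∧ p ∣ m.natAbs ∧ w < p ∧ (p : ℝ) ≤ Real.log T := by
    intro p hp
    rw [hP, mem_filter, mem_filter, Nat.mem_primeFactors] at hp
    exact ⟨hp.1.1.1, hp.1.1.2.1, hp.1.2, not_lt.1 hp.2⟩
  obtain ⟨D, hD⟩ : ∃ D : ℕ, D = ⌊(T : ℝ) ^ (1 / 20 : ℝ)⌋₊ := ⟨_, rfl⟩
  obtain ⟨Q1, hQ1⟩ : ∃ Q : Finset (Finset ℕ), Q = P.powerset.filter (fun S => ∏ p ∈ S, p ≤ D) :=
    ⟨_, rfl⟩
  obtain ⟨Q2, hQ2⟩ : ∃ Q : Finset (Finset ℕ), Q = P.powerset.filter (fun S => ¬ ∏ p ∈ S, p ≤ D) :=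
    ⟨_, rfl⟩
  have hexp : ∏ p ∈ P, (1 + C / (p : ℝ)) = (∑ S ∈ Q1, ∏ p ∈ S, C / (p : ℝ)) +
      ∑ S ∈ Q2, ∏ p ∈ S, C / (p : ℝ) := by
    rw [hQ1, hQ2, sum_filter_add_sum_filter_not, prod_one_add]
  rw [hexp]
  -- the large divisors
  have h2 : ∑ S ∈ Q2, ∏ p ∈ S, C / (p : ℝ) ≤ ε := by
    have ht : ∀ S ∈ Q2, ∏ p ∈ S, C / (p : ℝ) ≤
        (T : ℝ) ^ (-(1 / 40) : ℝ) * ∏ p ∈ S, C / Real.sqrt (p : ℝ) := by
      intro S hS
      rw [hQ2, mem_filter, mem_powerset, not_le] at hS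
      have hSp : ∀ p ∈ S, (0 : ℝ) < p := fun p hp => by
        exact_mod_cast (hPm p (hS.1 hp)).1.pos
      have e1 : ∏ p ∈ S, C / (p : ℝ) = (∏ p ∈ S, 1 / Real.sqrt (p : ℝ)) *
          ∏ p ∈ S, C / Real.sqrt (p : ℝ) := by
        rw [← prod_mul_distrib]
        refine prod_congr rfl fun p hp => ?_
        rw [div_mul_div_comm, one_mul, Real.mul_self_sqrt (hSp p hp).le]
      rw [e1]
      refine mul_le_mul_of_nonneg_right ?_ (prod_nonneg fun p hp => by positivity)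
      have e2 : ∏ p ∈ S, 1 / Real.sqrt (p : ℝ) = 1 / Real.sqrt ((∏ p ∈ S, p : ℕ) : ℝ) := by
        have e3 : Real.sqrt ((∏ p ∈ S, p : ℕ) : ℝ) = ∏ p ∈ S, Real.sqrt (p : ℝ) := by
          push_cast
          exact Real.sqrt_prod _ (fun p hp => (hSp p hp).le)
        rw [e3, prod_div_distrib, prod_const_one]
      rw [e2]
      have h3 : (T : ℝ) ^ (1 / 20 : ℝ) < ((∏ p ∈ S, p : ℕ) : ℝ) := by
        have h4 := hS.2
        rw [hD] at h4
        exact (Nat.floor_lt (by positivity)).1 h4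
      have h5 : (T : ℝ) ^ (1 / 40 : ℝ) ≤ Real.sqrt ((∏ p ∈ S, p : ℕ) : ℝ) := by
        refine Real.le_sqrt_of_sq_le ?_
        rw [← Real.rpow_natCast, ← Real.rpow_mul hT0.le]
        norm_num
        push_cast at h3
        exact h3.le
      rw [Real.rpow_neg hT0.le, ← one_div]
      exact one_div_le_one_div_of_le (by positivity) h5
    calc ∑ S ∈ Q2, ∏ p ∈ S, C / (p : ℝ)
        ≤ ∑ S ∈ Q2, (T : ℝ) ^ (-(1 / 40) : ℝ) * ∏ p ∈ S, C / Real.sqrt (p : ℝ) := sum_le_sum ht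
      _ ≤ ∑ S ∈ P.powerset, (T : ℝ) ^ (-(1 / 40) : ℝ) * ∏ p ∈ S, C / Real.sqrt (p : ℝ) := by
          refine sum_le_sum_of_subset_of_nonneg ?_ ?_
          · rw [hQ2]
            exact filter_subset _ _
          · intro S _ _
            exact mul_nonneg (by positivity) (prod_nonneg fun p hp => by positivity)
      _ = (T : ℝ) ^ (-(1 / 40) : ℝ) * ∏ p ∈ P, (1 + C / Real.sqrt (p : ℝ)) := by
          rw [← mul_sum, prod_one_add]
      _ ≤ (T : ℝ) ^ (-(1 / 40) : ℝ) * Real.exp (2 * C * s) := by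
          refine mul_le_mul_of_nonneg_left ?_ (by positivity)
          refine (A1_prod_exp _ fun p _ => by positivity).trans (Real.exp_le_exp.2 ?_)
          have h6 : P ⊆ Icc 1 ⌊Real.log T⌋₊ := by
            intro p hp
            rw [mem_Icc]
            exact ⟨(hPm p hp).1.one_lt.le, Nat.le_floor (hPm p hp).2.2.2⟩
          calc ∑ p ∈ P, C / Real.sqrt (p : ℝ) = C * ∑ p ∈ P, 1 / Real.sqrt (p : ℝ) := by
                rw [mul_sum]
                exact sum_congr rfl fun p _ => by ring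
            _ ≤ C * ∑ p ∈ Icc 1 ⌊Real.log T⌋₊, 1 / Real.sqrt (p : ℝ) :=
                mul_le_mul_of_nonneg_left
                  (sum_le_sum_of_subset_of_nonneg h6 fun p _ _ => by positivity) hC.le
            _ ≤ C * (2 * Real.sqrt (⌊Real.log T⌋₊ : ℝ)) :=
                mul_le_mul_of_nonneg_left (A1_sum_sqrt _) hC.le
            _ ≤ C * (2 * s) := by
                refine mul_le_mul_of_nonneg_left ?_ hC.le
                have := Real.sqrt_le_sqrt (Nat.floor_le hL0.le)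
                rw [hs]
                linarith
            _ = 2 * C * s := by ring
      _ ≤ ε := by
          rw [Real.rpow_def_of_pos hT0, ← Real.exp_add, ← hss]
          have h7 : s ^ 2 * (-(1 / 40)) + 2 * C * s ≤ Real.log ε := by
            have h8 : 40 * (2 * C + 1) ≤ s := by
              have := abs_nonneg (Real.log ε)
              linarith
            have h9 : -Real.log ε ≤ s := by
              have h10 := neg_le_abs (Real.log ε)
              have h11 : (0 : ℝ) ≤ 40 * (2 * C + 1) := by positivity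
              linarith
            have h12 : 0 ≤ s := hs1.le.trans hs_ge
            nlinarith
          calc Real.exp (s ^ 2 * (-(1 / 40)) + 2 * C * s) ≤ Real.exp (Real.log ε) :=
                Real.exp_le_exp.2 h7
            _ = ε := Real.exp_log hε
  -- the small divisors
  have h1 : ∑ S ∈ Q1, ∏ p ∈ S, C / (p : ℝ) ≤
      1 + ∑ d ∈ DS w T, (if (d : ℤ) ∣ m then C ^ d.primeFactors.card / (d : ℝ) else 0) := by
    have hpr : ∀ S ∈ Q1, ∀ p ∈ S, p.Prime := fun S hS p hp => by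
      rw [hQ1, mem_filter, mem_powerset] at hS
      exact (hPm p (hS.1 hp)).1
    have hpf : ∀ S ∈ Q1, (∏ p ∈ S, p).primeFactors = S := fun S hS =>
      Nat.primeFactors_prod (hpr S hS)
    have hterm : ∀ S ∈ Q1, ∏ p ∈ S, C / (p : ℝ) =
        C ^ (∏ p ∈ S, p).primeFactors.card / ((∏ p ∈ S, p : ℕ) : ℝ) := by
      intro S hS
      rw [hpf S hS, prod_div_distrib, prod_const]
      push_cast
      rfl
    have hinj : Set.InjOn (fun S : Finset ℕ => ∏ p ∈ S, p) (Q1 : Set (Finset ℕ)) := by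
      intro S hS S' hS' h
      rw [← hpf S hS, ← hpf S' hS']
      simp only at h
      rw [h]
    rw [sum_congr rfl hterm, ← sum_image (g := fun S : Finset ℕ => ∏ p ∈ S, p)
      (f := fun d : ℕ => C ^ d.primeFactors.card / (d : ℝ)) hinj]
    have hsub : Q1.image (fun S : Finset ℕ => ∏ p ∈ S, p) ⊆
        insert 1 ((DS w T).filter (fun d : ℕ => (d : ℤ) ∣ m)) := by
      intro d hd
      rw [mem_image] at hd
      obtain ⟨S, hS, rfl⟩ := hd
      rw [mem_insert, mem_filter, mem_DS]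
      by_cases hd1 : ∏ p ∈ S, p = 1
      · exact Or.inl hd1
      · right
        have hpos : 0 < ∏ p ∈ S, p := prod_pos fun p hp => (hpr S hS p hp).pos
        have hsf : Squarefree (∏ p ∈ S, p) := by
          refine Finset.squarefree_prod_of_pairwise_isCoprime (fun a ha b hb hab => ?_)
            fun a ha => (hpr S hS a ha).squarefree
          simp only [← Nat.coprime_iff_isRelPrime]
          exact (Nat.coprime_primes (hpr S hS a ha) (hpr S hS b hb)).mpr hab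
        have hQ := hS
        rw [hQ1, mem_filter, mem_powerset] at hQ
        refine ⟨⟨⟨by omega, ?_⟩, hsf, ?_⟩, ?_⟩
        · rw [← hD]
          exact hQ.2
        · rw [hpf S hS]
          exact fun p hp => (hPm p (hQ.1 hp)).2.2.1
        · rw [Int.natCast_dvd]
          refine Finset.prod_primes_dvd _ (fun p hp => (hpr S hS p hp).prime) fun p hp => ?_
          exact (hPm p (hQ.1 hp)).2.1
    refine (sum_le_sum_of_subset_of_nonneg hsub fun d _ _ => by positivity).trans ?_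
    have h1n : (1 : ℕ) ∉ (DS w T).filter (fun d : ℕ => (d : ℤ) ∣ m) := by
      rw [mem_filter, mem_DS]
      rintro ⟨⟨⟨h, -⟩, -⟩, -⟩
      omega
    rw [sum_insert h1n, sum_filter]
    simp
  linarith

/-- `EE = head * tail`, `(1 + x) (1 + ε') ≤ 1 + ...`: use `EE_head` with `ε / 8` (or so) and `EE_tail` with `min 1 (ε / 4)`. -/
theorem EE_le (C ε : ℝ) (hC : 0 < C) (hε : 0 < ε) (M : ℕ) : ∃ T₀ : ℕ, ∀ T ≥ T₀, ∀ (w : ℕ) (m : ℤ), m ≠ 0 →
    |(m : ℝ)| ≤ (T : ℝ) ^ M →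
    EE C w m ≤ 1 + ε + 2 * ∑ d ∈ DS w T, (if (d : ℤ) ∣ m then C ^ d.primeFactors.card / (d : ℝ) else 0) := by
  obtain ⟨t, ht⟩ : ∃ t : ℝ, t = min 1 (ε / 4) := ⟨_, rfl⟩
  have ht0 : 0 < t := by rw [ht]; exact lt_min one_pos (by linarith)
  have ht1 : t ≤ 1 := by rw [ht]; exact min_le_left _ _
  have ht2 : t ≤ ε / 4 := by rw [ht]; exact min_le_right _ _
  obtain ⟨T1, hT1⟩ := EE_tail C t hC ht0 M
  obtain ⟨T2, hT2⟩ := EE_head C (ε / 8) hC (by linarith)
  refine ⟨max T1 T2, fun T hT w m hm0 hm => ?_⟩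
  have h1 := hT1 T ((le_max_left _ _).trans hT) w m hm0 hm
  have h2 := hT2 T ((le_max_right _ _).trans hT) w m hm0
  have hx : 0 ≤ ∑ d ∈ DS w T, (if (d : ℤ) ∣ m then C ^ d.primeFactors.card / (d : ℝ) else 0) := by
    refine sum_nonneg fun d _ => ?_
    split_ifs
    · positivity
    · exact le_rfl
  rw [EE, ← prod_filter_mul_prod_filter_not _ (fun p : ℕ => Real.log T < p)]
  have h3 : 0 ≤ ∏ p ∈ (m.natAbs.primeFactors.filter (w < ·)).filter
      (fun p : ℕ => ¬ Real.log T < p), (1 + C / (p : ℝ)) :=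
    prod_nonneg fun p _ => by positivity
  generalize (∑ d ∈ DS w T, (if (d : ℤ) ∣ m then C ^ d.primeFactors.card / (d : ℝ) else 0)) = x at *
  calc _ ≤ (1 + t) * (1 + ε / 8 + x) := mul_le_mul h1 h2 h3 (by linarith)
    _ ≤ 1 + ε + 2 * x := by nlinarith

end Pool.Agent.W33f
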