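import Pool.Agent.W_d33b62f_h41.A0

/-!
# MP_d33b62_nt: definitions for `FAM0`, second part (helper41)
-/

set_option autoImplicit false

noncomputable section

open Finset

namespace Pool.Agent.W33f

open Classical in
/-- The good circles of one dyadic block. -/
def GB {k : ℕ} (D : Dat k) (v₀ : ℤ × ℤ) (C η : ℝ) (T : ℕ) : Finset (ℤ × ℤ) :=
  (SF D.a0 D.W D.al T).filter fun xi => Int.gcd xi.1 xi.2 = 1 ∧ (D.a0 : ℤ) ∣ v₀.1 * xi.2 - v₀.2 * xi.1 ∧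
    EE C D.w (nm xi) ≤ 1 + η ∧ ∀ l, EE C D.w (nm xi - D.a0 + D.h D.i - D.h l) ≤ 1 + η

theorem mem_GB {k : ℕ} {D : Dat k} {v₀ : ℤ × ℤ} {C η : ℝ} {T : ℕ} {xi : ℤ × ℤ} : xi ∈ GB D v₀ C η T ↔
    (∃ q : ℕ, q ∈ Ioc T (2 * T) ∧ q.Prime ∧ q ≡ D.al [MOD 4 * D.W] ∧ nm xi = q + D.a0) ∧
      Int.gcd xi.1 xi.2 = 1 ∧ (D.a0 : ℤ) ∣ v₀.1 * xi.2 - v₀.2 * xi.1 ∧
    EE C D.w (nm xi) ≤ 1 + η ∧ ∀ l, EE C D.w (nm xi - D.a0 + D.h D.i - D.h l) ≤ 1 + η := by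
  unfold GB
  rw [mem_filter, mem_SF]

open Classical in
/-- The family `J`. -/
def JJ {k : ℕ} (D : Dat k) (v₀ : ℤ × ℤ) (C η : ℝ) (j₀ M : ℕ) : Finset (ℤ × ℤ) :=
  (Ico j₀ (M * j₀)).biUnion fun j => GB D v₀ C η (2 ^ j)

/-- `2 ^ j / (φ(4 W) log 2 ^ j)`. -/
def ZZ (W j : ℕ) : ℝ := (((2 ^ j : ℕ) : ℝ)) / ((4 * W).totient * Real.log ((2 ^ j : ℕ) : ℝ))

theorem a_eq {k : ℕ} {D : Dat k} {xi : ℤ × ℤ} {q : ℕ} (h : nm xi = q + D.a0) : D.a xi = q := by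
  unfold Dat.a
  rw [h, add_sub_cancel_right, Int.toNat_natCast]

end Pool.Agent.W33f
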