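import Pool.Agent.W_d33b62f_h41.Rd

/-!
# MP_d33b62_nt: multiplicativity of `rr`
-/

set_option autoImplicit false

noncomputable section

open Finset

namespace Pool.Agent.W33f

/-- Chinese remainder theorem. Proof: `ZMod.chineseRemainder h : ZMod (m * n) ≃+* ZMod m × ZMod n` gives an equivalence of the
subtypes (`Nat.card_congr`, `Nat.card_prod`). -/
theorem rr_mul (m n : ℕ) (h : Nat.Coprime m n) (N : ℤ) : rr (m * n) N = rr m N * rr n N := by
  unfold rr
  rw [← Nat.card_prod]
  let e := ZMod.chineseRemainder h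
  refine Nat.card_congr ((Equiv.subtypeEquiv ((Equiv.prodCongr e.toEquiv e.toEquiv).trans
    (Equiv.prodProdProdComm _ _ _ _)) (q := fun c : (ZMod m × ZMod m) × (ZMod n × ZMod n) =>
      c.1.1 ^ 2 + c.1.2 ^ 2 = (N : ZMod m) ∧ c.2.1 ^ 2 + c.2.2 ^ 2 = (N : ZMod n)) ?_).trans
    (Equiv.subtypeProdEquivProd (p := fun c : ZMod m × ZMod m => c.1 ^ 2 + c.2 ^ 2 = (N : ZMod m))
      (q := fun c : ZMod n × ZMod n => c.1 ^ 2 + c.2 ^ 2 = (N : ZMod n))))
  intro z
  have h1 : z.1 ^ 2 + z.2 ^ 2 = (N : ZMod (m * n)) ↔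
      e (z.1 ^ 2 + z.2 ^ 2) = e (N : ZMod (m * n)) := e.injective.eq_iff.symm
  rw [h1, map_add, map_pow, map_pow, map_intCast, Prod.ext_iff]
  rfl

theorem R1_pow (e : ℕ → ℕ) (S : Finset ℕ) (hS : ∀ p ∈ S, p.Prime) (N : ℤ) :
    rr (∏ p ∈ S, p ^ e p) N = ∏ p ∈ S, rr (p ^ e p) N := by
  classical
  induction S using Finset.induction_on with
  | empty => rw [prod_empty, prod_empty, rr_one]
  | insert p S hp ih =>
    rw [prod_insert hp, prod_insert hp, rr_mul, ih fun q hq => hS q (mem_insert_of_mem hq)]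
    refine Nat.Coprime.prod_right fun q hq => Nat.Coprime.pow _ _ ?_
    refine (Nat.coprime_primes (hS p (mem_insert_self p S)) (hS q (mem_insert_of_mem hq))).2 ?_
    rintro rfl
    exact hp hq

/-- `rr` of a product of distinct primes. Induction with `rr_mul`. (`rr 1 N = 1`.) -/
theorem rr_prod (S : Finset ℕ) (hS : ∀ p ∈ S, p.Prime) (N : ℤ) : rr (∏ p ∈ S, p) N = ∏ p ∈ S, rr p N := by
  have h := R1_pow (fun _ => 1) S hS N
  simp only [pow_one] at h
  exact h

/-- `rr` from the factorization (`Nat.multiplicative_factorization` style induction or `Nat.recOnPosPrimePosCoprime`). -/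
theorem rr_fact (m : ℕ) (hm : m ≠ 0) (N : ℤ) : rr m N = ∏ p ∈ m.primeFactors, rr (p ^ m.factorization p) N := by
  have h := R1_pow m.factorization m.primeFactors (fun p hp => Nat.prime_of_mem_primeFactors hp) N
  have h2 : ∏ p ∈ m.primeFactors, p ^ m.factorization p = m := by
    have h3 := Nat.prod_factorization_pow_eq_self hm
    rw [Finsupp.prod, Nat.support_factorization] at h3
    exact h3
  rw [h2] at h
  exact h

end Pool.Agent.W33f
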