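import Pool.Agent.W_d33b62f_h41.Rd
import Pool.Agent.W_d33b62t5_h98.CrC

/-!
# MP_d33b62_nt: `rr` at a prime
-/

set_option autoImplicit false

noncomputable section

open Finset

namespace Pool.Agent.W33f

/-- The number of `(x, y)` mod `p` with `x ^ 2 + y ^ 2 = N ≠ 0` is `p - χ₄ p`: `Wd33b62c.cr_circ` (`W_d33b62t5_h98/CrC.lean`, stated
there, task of helper59) and `rr_eq_card`. -/
theorem rr_prime (p : ℕ) (hp : p.Prime) (h2 : p ≠ 2) (N : ℤ) (hN : ¬ (p : ℤ) ∣ N) :
    (rr p N : ℤ) = p - ZMod.χ₄ (p : ZMod 4) := by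
  have : Fact p.Prime := ⟨hp⟩
  have hc : ((N : ℤ) : ZMod p) ≠ 0 := by
    intro h
    exact hN ((ZMod.intCast_zmod_eq_zero_iff_dvd _ _).1 h)
  rw [rr_eq_card, ← Pool.Agent.Wd33b62c.cr_circ p h2 _ hc]

theorem r2_fibre (p : ℕ) [Fact p.Prime] (c : ZMod p) :
    ((univ : Finset (ZMod p)).filter fun y => y ^ 2 = c).card ≤ 2 := by
  by_cases h : ∃ r : ZMod p, r ^ 2 = c
  · obtain ⟨r, hr⟩ := h
    have hsub : ((univ : Finset (ZMod p)).filter fun y => y ^ 2 = c) ⊆ {r, -r} := by
      intro y hy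
      rw [mem_filter] at hy
      rw [mem_insert, mem_singleton]
      exact sq_eq_sq_iff_eq_or_eq_neg.1 (hy.2.trans hr.symm)
    exact (card_le_card hsub).trans card_le_two
  · rw [filter_eq_empty_iff.2 fun y _ hy => h ⟨y, hy⟩, card_empty]
    omega

/-- For every `N` there are at most `2 p` classes (for every `x` at most two `y`). -/
theorem rr_prime_le (p : ℕ) (hp : p.Prime) (N : ℤ) : rr p N ≤ 2 * p := by
  classical
  have : Fact p.Prime := ⟨hp⟩
  rw [rr_eq_card]
  have h1 : ((univ : Finset (ZMod p × ZMod p)).filter fun z => z.1 ^ 2 + z.2 ^ 2 = (N : ZMod p)).card =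
      ∑ x : ZMod p, ((univ : Finset (ZMod p)).filter fun y => y ^ 2 = (N : ZMod p) - x ^ 2).card := by
    rw [← univ_product_univ, card_filter, sum_product]
    refine sum_congr rfl fun x _ => ?_
    rw [card_filter]
    refine sum_congr rfl fun y _ => ?_
    have : (x ^ 2 + y ^ 2 = (N : ZMod p)) ↔ (y ^ 2 = (N : ZMod p) - x ^ 2) :=
      ⟨fun h => by linear_combination h, fun h => by linear_combination h⟩
    simp only [this]
  have h2 : ∑ x : ZMod p, ((univ : Finset (ZMod p)).filter fun y => y ^ 2 = (N : ZMod p) - x ^ 2).card ≤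
      ∑ _x : ZMod p, 2 := sum_le_sum fun x _ => r2_fibre p _
  rw [sum_const, card_univ, ZMod.card, smul_eq_mul] at h2
  have h3 := h1.le.trans h2
  rw [mul_comm]
  convert h3 using 2

end Pool.Agent.W33f
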