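import Pool.Agent.W_d33b62f_h37.Df

/-!
# MP_d33b62_nt: the number of classes `z` mod `m` with `nm z ≡ N` (helper41)
-/

set_option autoImplicit false

noncomputable section

open Finset

namespace Pool.Agent.W33f

/-- Number of the classes `z` mod `m` with `nm z ≡ N`. -/
def rr (m : ℕ) (N : ℤ) : ℕ := Nat.card {z : ZMod m × ZMod m // z.1 ^ 2 + z.2 ^ 2 = (N : ZMod m)}

theorem rr_congr (m : ℕ) (N N' : ℤ) (h : (m : ℤ) ∣ N - N') : rr m N = rr m N' := by
  have h1 : (N : ZMod m) = (N' : ZMod m) := by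
    rw [← sub_eq_zero, ← Int.cast_sub]
    exact (ZMod.intCast_zmod_eq_zero_iff_dvd _ _).2 h
  unfold rr
  rw [h1]

open Classical in
theorem rr_eq_card (m : ℕ) [NeZero m] (N : ℤ) :
    rr m N = ((univ : Finset (ZMod m × ZMod m)).filter fun z => z.1 ^ 2 + z.2 ^ 2 = (N : ZMod m)).card := by
  unfold rr
  rw [Nat.card_eq_fintype_card, Fintype.card_subtype]

/-- The same number with representatives `0 ≤ x, y < m`. -/
theorem rr_range (m : ℕ) (hm : m ≠ 0) (N : ℤ) :
    rr m N = ((range m ×ˢ range m).filter fun z => (m : ℤ) ∣ nm ((z.1 : ℤ), (z.2 : ℤ)) - N).card := by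
  classical
  haveI : NeZero m := ⟨hm⟩
  rw [rr_eq_card]
  refine card_bij (fun z _ => (z.1.val, z.2.val)) ?_ ?_ ?_
  · intro z hz
    rw [mem_filter] at hz
    rw [mem_filter, mem_product, mem_range, mem_range]
    refine ⟨⟨ZMod.val_lt _, ZMod.val_lt _⟩, ?_⟩
    rw [← ZMod.intCast_zmod_eq_zero_iff_dvd]
    unfold nm
    push_cast
    rw [ZMod.natCast_zmod_val, ZMod.natCast_zmod_val, hz.2, sub_self]
  · intro z _ z' _ h
    rw [Prod.mk.injEq] at h
    exact Prod.ext (ZMod.val_injective m h.1) (ZMod.val_injective m h.2)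
  · intro z hz
    rw [mem_filter, mem_product, mem_range, mem_range] at hz
    refine ⟨((z.1 : ZMod m), (z.2 : ZMod m)), ?_, ?_⟩
    · rw [mem_filter]
      refine ⟨mem_univ _, ?_⟩
      have h1 := (ZMod.intCast_zmod_eq_zero_iff_dvd _ m).2 hz.2
      unfold nm at h1
      push_cast at h1
      exact sub_eq_zero.1 h1
    · exact Prod.ext (ZMod.val_cast_of_lt hz.1.1) (ZMod.val_cast_of_lt hz.1.2)

theorem rr_le_sq (m : ℕ) (hm : m ≠ 0) (N : ℤ) : rr m N ≤ m ^ 2 := by
  rw [rr_range m hm]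
  refine (card_filter_le _ _).trans ?_
  rw [card_product, card_range, sq]

theorem rr_one (N : ℤ) : rr 1 N = 1 := by
  rw [rr_range 1 one_ne_zero]
  have h : (range 1 ×ˢ range 1).filter (fun z : ℕ × ℕ => ((1 : ℕ) : ℤ) ∣ nm ((z.1 : ℤ), (z.2 : ℤ)) - N) = {(0, 0)} := by
    ext z
    rw [mem_filter, mem_product, mem_range, mem_range, mem_singleton, Prod.ext_iff]
    constructor
    · rintro ⟨⟨h1, h2⟩, _⟩
      exact ⟨by omega, by omega⟩
    · rintro ⟨h1, h2⟩
      have h1' : z.1 = 0 := h1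
      have h2' : z.2 = 0 := h2
      refine ⟨⟨by omega, by omega⟩, ?_⟩
      rw [Nat.cast_one]
      exact one_dvd _
  rw [h, card_singleton]

end Pool.Agent.W33f
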